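import Pool.Agent.H.MP_cba12a_lc.S9.Cls9

/-!
The rich terms of all lengths.
-/

namespace Pool.Agent.H.MP_cba12a_lc

open Finset

variable {n : ℕ}

variable {t : ℕ} {κ : ℝ} {X : Finset (Fin n)} {G : Finset (Finset (Fin n × Bool))}

open Classical in
/-- The rich terms of a given length have small total weight. -/
theorem rich_class_le (hshare : ∀ T ∈ G, ∀ T' ∈ G, T ≠ T' → (vs T ∩ vs T').card ≤ t)
    {lam : ℝ} (hlam : 0 ≤ lam) (ℓ : ℕ) :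
    ∑ T ∈ G.filter (fun T => T.card = ℓ ∧ Rich G t lam T), wF T ≤
      lam * (∑ j ∈ vcl G ℓ, dg G j) ^ (t + 1) := by
  set GR := G.filter fun T => T.card = ℓ ∧ Rich G t lam T with hGR
  have hex : ∀ T ∈ GR, ∃ f : Fin (t + 1) → Fin n, Function.Injective f ∧ (∀ i, f i ∈ vs T) ∧
      wF T < lam * ∏ i, dg G (f i) := fun T hT => (mem_filter.1 hT).2.2
  rcases GR.eq_empty_or_nonempty with hemp | ⟨T0, hT0⟩
  · rw [hemp, sum_empty]
    exact mul_nonneg hlam (pow_nonneg (sum_nonneg fun j _ => dg_nonneg G j) _)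
  obtain ⟨f0, -⟩ := hex T0 hT0
  have : Nonempty (Fin (t + 1) → Fin n) := ⟨f0⟩
  choose! F hF1 hF2 hF3 using hex
  have hinj : Set.InjOn F (GR : Set (Finset (Fin n × Bool))) := by
    intro T hT T' hT' he
    by_contra hne
    have hT := mem_coe.1 hT
    have hT' := mem_coe.1 hT'
    have h1 := hshare T (mem_filter.1 hT).1 T' (mem_filter.1 hT').1 hne
    have h2 : univ.image (F T) ⊆ vs T ∩ vs T' := by
      intro j hj
      obtain ⟨i, _, rfl⟩ := mem_image.1 hj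
      rw [mem_inter]
      refine ⟨hF2 T hT i, ?_⟩
      rw [he]
      exact hF2 T' hT' i
    have h3 := card_le_card h2
    rw [card_image_of_injective _ (hF1 T hT), card_univ, Fintype.card_fin] at h3
    omega
  have hmem : GR.image F ⊆ Fintype.piFinset fun _ : Fin (t + 1) => vcl G ℓ := by
    intro f hf
    obtain ⟨T, hT, rfl⟩ := mem_image.1 hf
    rw [Fintype.mem_piFinset]
    intro i
    exact mem_biUnion.2 ⟨T, mem_filter.2 ⟨(mem_filter.1 hT).1, (mem_filter.1 hT).2.1⟩, hF2 T hT i⟩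
  calc ∑ T ∈ GR, wF T ≤ ∑ T ∈ GR, lam * ∏ i, dg G (F T i) :=
        sum_le_sum fun T hT => (hF3 T hT).le
    _ = lam * ∑ T ∈ GR, ∏ i, dg G (F T i) := by rw [mul_sum]
    _ = lam * ∑ f ∈ GR.image F, ∏ i, dg G (f i) := by
        rw [sum_image hinj]
    _ ≤ lam * ∑ f ∈ Fintype.piFinset fun _ : Fin (t + 1) => vcl G ℓ, ∏ i, dg G (f i) := by
        refine mul_le_mul_of_nonneg_left ?_ hlam
        exact sum_le_sum_of_subset_of_nonneg hmem fun f _ _ =>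
          prod_nonneg fun i _ => dg_nonneg G _
    _ = lam * (∑ j ∈ vcl G ℓ, dg G j) ^ (t + 1) := by
        congr 1
        have := Finset.prod_univ_sum (fun _ : Fin (t + 1) => vcl G ℓ) (fun _ j => dg G j)
        rw [← this]
        simp

/-- A telescoping sum. -/
theorem sum_inv_le {ℓ0 N : ℕ} (hℓ0 : 1 ≤ ℓ0) :
    ∑ ℓ ∈ Ico ℓ0 N, (1 : ℝ) / (ℓ * (ℓ + 1)) ≤ 1 := by
  rcases Nat.lt_or_ge N ℓ0 with hN | hN
  · rw [Ico_eq_empty (by omega), sum_empty]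
    exact zero_le_one
  have key : ∀ k : ℕ, ∑ ℓ ∈ Ico ℓ0 (ℓ0 + k), (1 : ℝ) / (ℓ * (ℓ + 1)) =
      1 / (ℓ0 : ℝ) - 1 / ((ℓ0 : ℝ) + k) := by
    intro k
    induction k with
    | zero => simp
    | succ k ih =>
      rw [← add_assoc, sum_Ico_succ_top (by omega), ih]
      have h1 : (0 : ℝ) < ℓ0 := by exact_mod_cast hℓ0
      have h2 : (0 : ℝ) ≤ k := Nat.cast_nonneg k
      push_cast
      field_simp
      ring
  obtain ⟨k, rfl⟩ := Nat.exists_eq_add_of_le hN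
  rw [key]
  have h1 : (1 : ℝ) ≤ ℓ0 := by exact_mod_cast hℓ0
  have h2 : (0 : ℝ) ≤ k := Nat.cast_nonneg k
  have h3 : (1 : ℝ) / ℓ0 ≤ 1 := by
    rw [div_le_one (by linarith)]
    exact h1
  have h4 : (0 : ℝ) ≤ 1 / ((ℓ0 : ℝ) + k) := by positivity
  linarith

open Classical in
/-- The rich terms of all lengths have small total weight. -/
theorem rich_total_le (h : Fam9 t κ X G) {B : ℝ} (hB : 1 ≤ B) (hW : tW G ≤ B) {ℓ0 : ℕ}
    (hℓ0 : 1 ≤ ℓ0) (hℓB : ∀ ℓ : ℕ, ℓ0 ≤ ℓ → ℓ * B ≤ 2 ^ ℓ) {lam : ℕ → ℝ} {η : ℝ} (hη : 0 ≤ η)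
    (hlam0 : ∀ ℓ : ℕ, ℓ0 ≤ ℓ → 0 ≤ lam ℓ)
    (hlam : ∀ ℓ : ℕ, ℓ0 ≤ ℓ → lam ℓ * (6 * (t + 1) * ℓ * B) ^ (t + 1) ≤ η / (ℓ * (ℓ + 1))) :
    ∑ T ∈ G.filter (fun T => ℓ0 ≤ T.card ∧ Rich G t (lam T.card) T), wF T ≤ η := by
  set GA := G.filter (fun T => ℓ0 ≤ T.card ∧ Rich G t (lam T.card) T) with hGA
  have hmap : ∀ T ∈ GA, T.card ∈ Ico ℓ0 (n + 1) := by
    intro T hT
    have h1 := mem_filter.1 hT
    rw [mem_Ico]
    exact ⟨h1.2.1, Nat.lt_succ_of_le (h.card_le h1.1)⟩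
  rw [← sum_fiberwise_of_maps_to hmap]
  have hcl : ∀ ℓ ∈ Ico ℓ0 (n + 1), ∑ T ∈ GA.filter (fun T => T.card = ℓ), wF T ≤
      η * (1 / (ℓ * (ℓ + 1))) := by
    intro ℓ hℓ
    have hℓ1 := (mem_Ico.1 hℓ).1
    have hsub : GA.filter (fun T => T.card = ℓ) ⊆
        G.filter (fun T => T.card = ℓ ∧ Rich G t (lam ℓ) T) := by
      intro T hT
      obtain ⟨h1, h2⟩ := mem_filter.1 hT
      obtain ⟨h3, h4, h5⟩ := mem_filter.1 h1
      rw [h2] at h5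
      exact mem_filter.2 ⟨h3, h2, h5⟩
    calc ∑ T ∈ GA.filter (fun T => T.card = ℓ), wF T
        ≤ ∑ T ∈ G.filter (fun T => T.card = ℓ ∧ Rich G t (lam ℓ) T), wF T :=
          sum_le_sum_of_subset_of_nonneg hsub fun T _ _ => (wF_pos T).le
      _ ≤ lam ℓ * (∑ j ∈ vcl G ℓ, dg G j) ^ (t + 1) :=
          rich_class_le h.share (hlam0 ℓ hℓ1) ℓ
      _ ≤ lam ℓ * (6 * (t + 1) * ℓ * B) ^ (t + 1) := by
          refine mul_le_mul_of_nonneg_left ?_ (hlam0 ℓ hℓ1)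
          refine pow_le_pow_left₀ (sum_nonneg fun j _ => dg_nonneg G j) ?_ _
          exact dgcl_le h.share hB hW (hℓ0.trans hℓ1) (hℓB ℓ hℓ1)
      _ ≤ η / (ℓ * (ℓ + 1)) := hlam ℓ hℓ1
      _ = η * (1 / (ℓ * (ℓ + 1))) := by rw [mul_one_div]
  calc ∑ ℓ ∈ Ico ℓ0 (n + 1), ∑ T ∈ GA.filter (fun T => T.card = ℓ), wF T
      ≤ ∑ ℓ ∈ Ico ℓ0 (n + 1), η * (1 / (ℓ * (ℓ + 1))) := sum_le_sum hcl
    _ = η * ∑ ℓ ∈ Ico ℓ0 (n + 1), (1 : ℝ) / (ℓ * (ℓ + 1)) := by rw [mul_sum]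
    _ ≤ η * 1 := mul_le_mul_of_nonneg_left (sum_inv_le hℓ0) hη
    _ = η := mul_one η

end Pool.Agent.H.MP_cba12a_lc
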