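import Pool.Agent.H.MP_cba12a_lc.S9.DegV9

/-!
Terms of a given length.
-/

namespace Pool.Agent.H.MP_cba12a_lc

open Finset

variable {n : ℕ}

/-- the terms of length `ℓ` -/
def cls (G : Finset (Finset (Fin n × Bool))) (ℓ : ℕ) : Finset (Finset (Fin n × Bool)) :=
  G.filter fun T => T.card = ℓ

/-- the variables of the terms of length `ℓ` -/
def vcl (G : Finset (Finset (Fin n × Bool))) (ℓ : ℕ) : Finset (Fin n) := (cls G ℓ).biUnion vs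

variable {t : ℕ} {κ : ℝ} {X : Finset (Fin n)} {G : Finset (Finset (Fin n × Bool))}

/-- The number of the variables of the terms of length `ℓ` is bounded by the total weight. -/
theorem vcl_card_le (ℓ : ℕ) : ((vcl G ℓ).card : ℝ) ≤ ℓ * 2 ^ ℓ * tW G := by
  have h1 : (vcl G ℓ).card ≤ (cls G ℓ).card * ℓ := by
    unfold vcl
    refine card_biUnion_le.trans ?_
    rw [← smul_eq_mul]
    refine sum_le_card_nsmul _ _ _ fun T hT => ?_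
    unfold cls at hT
    rw [mem_filter] at hT
    exact (vs_card_le T).trans hT.2.le
  have h2 : ((cls G ℓ).card : ℝ) * (1 / 2) ^ ℓ ≤ tW G := by
    have e : ((cls G ℓ).card : ℝ) * (1 / 2) ^ ℓ = ∑ T ∈ cls G ℓ, wF T := by
      rw [← nsmul_eq_mul, ← sum_const]
      refine sum_congr rfl fun T hT => ?_
      unfold cls at hT
      rw [mem_filter] at hT
      unfold wF
      rw [hT.2]
    rw [e]
    unfold tW
    exact sum_le_sum_of_subset_of_nonneg (filter_subset _ _) fun T _ _ => (wF_pos T).le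
  have h3 : ((vcl G ℓ).card : ℝ) ≤ (cls G ℓ).card * ℓ := by exact_mod_cast h1
  have h4 : (2 : ℝ) ^ ℓ * (1 / 2) ^ ℓ = 1 := by
    rw [← mul_pow]; norm_num
  have h5 : ((cls G ℓ).card : ℝ) * ℓ = ℓ * 2 ^ ℓ * (((cls G ℓ).card : ℝ) * (1 / 2) ^ ℓ) := by
    linear_combination (-((cls G ℓ).card : ℝ) * ℓ) * h4
  calc ((vcl G ℓ).card : ℝ) ≤ (cls G ℓ).card * ℓ := h3
    _ = ℓ * 2 ^ ℓ * (((cls G ℓ).card : ℝ) * (1 / 2) ^ ℓ) := h5
    _ ≤ ℓ * 2 ^ ℓ * tW G := mul_le_mul_of_nonneg_left h2 (by positivity)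

/-- The sum of the degrees of the variables of the terms of length `ℓ` is small. -/
theorem dgcl_le (hshare : ∀ T ∈ G, ∀ T' ∈ G, T ≠ T' → (vs T ∩ vs T').card ≤ t) {ℓ : ℕ} {B : ℝ}
    (hB : 1 ≤ B) (hW : tW G ≤ B) (hℓ : 1 ≤ ℓ) (hℓB : ℓ * B ≤ 2 ^ ℓ) :
    ∑ j ∈ vcl G ℓ, dg G j ≤ 6 * (t + 1) * ℓ * B := by
  have h1 := dgV_le hshare (vcl G ℓ) (h := 2 * (t + 1) * ℓ) (by nlinarith)
  have hℓ1 : (1 : ℝ) ≤ ℓ := by exact_mod_cast hℓ
  have hB0 : 0 ≤ B := by linarith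
  have hV : ((vcl G ℓ).card : ℝ) ≤ ℓ * 2 ^ ℓ * B :=
    (vcl_card_le ℓ).trans (mul_le_mul_of_nonneg_left hW (by positivity))
  have h2 : ((vcl G ℓ).card : ℝ) ^ (t + 1) * (1 / 2) ^ (2 * (t + 1) * ℓ) ≤ 1 := by
    have e : ((1 : ℝ) / 2) ^ (2 * (t + 1) * ℓ) = ((1 / 2) ^ (2 * ℓ)) ^ (t + 1) := by
      rw [← pow_mul]
      congr 1
      ring
    rw [e, ← mul_pow]
    refine pow_le_one₀ (by positivity) ?_
    have h4 : (2 : ℝ) ^ ℓ * (1 / 2) ^ ℓ = 1 := by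
      rw [← mul_pow]; norm_num
    calc ((vcl G ℓ).card : ℝ) * (1 / 2) ^ (2 * ℓ)
        ≤ ℓ * 2 ^ ℓ * B * (1 / 2) ^ (2 * ℓ) := mul_le_mul_of_nonneg_right hV (by positivity)
      _ = ℓ * B * (1 / 2) ^ ℓ * (2 ^ ℓ * (1 / 2) ^ ℓ) := by rw [two_mul, pow_add]; ring
      _ = ℓ * B * (1 / 2) ^ ℓ := by rw [h4, mul_one]
      _ ≤ 2 ^ ℓ * (1 / 2) ^ ℓ := mul_le_mul_of_nonneg_right hℓB (by positivity)
      _ = 1 := h4
  have h3 : 2 * ((2 * (t + 1) * ℓ : ℕ) : ℝ) * tW G ≤ 4 * (t + 1) * ℓ * B := by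
    push_cast
    have : (0 : ℝ) ≤ 4 * (t + 1) * ℓ := by positivity
    nlinarith [mul_le_mul_of_nonneg_left hW this]
  have h5 : (1 : ℝ) ≤ (t + 1) * ℓ * B := by
    have ht : (1 : ℝ) ≤ (t : ℝ) + 1 := by
      have : (0 : ℝ) ≤ t := Nat.cast_nonneg t
      linarith
    exact one_le_mul_of_one_le_of_one_le (one_le_mul_of_one_le_of_one_le ht hℓ1) hB
  calc ∑ j ∈ vcl G ℓ, dg G j
      ≤ 2 * ((2 * (t + 1) * ℓ : ℕ) : ℝ) * tW G +
        2 * ((vcl G ℓ).card : ℝ) ^ (t + 1) * (1 / 2) ^ (2 * (t + 1) * ℓ) := h1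
    _ ≤ 4 * (t + 1) * ℓ * B + 2 * 1 := by
        have e : 2 * ((vcl G ℓ).card : ℝ) ^ (t + 1) * (1 / 2) ^ (2 * (t + 1) * ℓ) =
            2 * (((vcl G ℓ).card : ℝ) ^ (t + 1) * (1 / 2) ^ (2 * (t + 1) * ℓ)) := by ring
        rw [e]
        linarith
    _ ≤ 6 * (t + 1) * ℓ * B := by linarith

end Pool.Agent.H.MP_cba12a_lc
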