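import Pool.Agent.H.MP_cba12a_lc.S9.Fam9

/-!
The link of a literal: degrees of variables are bounded by the weight bound for `t - 1`.
-/

namespace Pool.Agent.H.MP_cba12a_lc

open Finset

variable {n : ℕ}

/-- the link of a literal -/
def link (G : Finset (Finset (Fin n × Bool))) (l : Fin n × Bool) :
    Finset (Finset (Fin n × Bool)) :=
  (G.filter fun T => l ∈ T).image fun T => T.erase l

variable {t : ℕ} {κ : ℝ} {X : Finset (Fin n)} {G : Finset (Finset (Fin n × Bool))}

/-- Weights of the terms containing a literal, through the link. -/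
theorem sum_link (l : Fin n × Bool) :
    ∑ T ∈ G.filter (fun T => l ∈ T), wF T = 1 / 2 * tW (link G l) := by
  unfold tW link
  rw [sum_image, mul_sum]
  · refine sum_congr rfl fun T hT => ?_
    have hl : l ∈ T := (mem_filter.1 hT).2
    unfold wF
    rw [card_erase_of_mem hl]
    have h1 : T.card = T.card - 1 + 1 := by
      have := card_pos.2 ⟨l, hl⟩
      omega
    conv_lhs => rw [h1]
    rw [pow_succ]
    ring
  · intro T hT T' hT' h
    have h1 : l ∈ T := (mem_filter.1 hT).2
    have h2 : l ∈ T' := (mem_filter.1 hT').2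
    have h3 : T.erase l = T'.erase l := h
    rw [← insert_erase h1, ← insert_erase h2, h3]

theorem vs_erase_link {T : Finset (Fin n × Bool)} (hT : (vs T).card = T.card)
    {l : Fin n × Bool} (hl : l ∈ T) : vs (T.erase l) = (vs T).erase l.1 := by
  ext i
  rw [mem_erase, mem_vs, mem_vs]
  constructor
  · rintro ⟨l', hl', rfl⟩
    rw [mem_erase] at hl'
    refine ⟨fun hc => hl'.1 ?_, l', hl'.2, rfl⟩
    exact inj_of_card hT (mem_coe.2 hl'.2) (mem_coe.2 hl) hc
  · rintro ⟨h1, l', hl', rfl⟩
    exact ⟨l', mem_erase.2 ⟨fun hc => h1 (by rw [hc]), hl'⟩, rfl⟩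

/-- The link of a literal is a family with smaller overlaps. -/
theorem link_fam (h : Fam9 (t + 1) κ X G) {l : Fin n × Bool} (hl : l.1 ∉ X) :
    Fam9 t κ (insert l.1 X) (link G l) := by
  have hmem : ∀ T ∈ link G l, ∃ T' ∈ G, l ∈ T' ∧ T'.erase l = T := by
    intro T hT
    unfold link at hT
    obtain ⟨T', hT', rfl⟩ := mem_image.1 hT
    exact ⟨T', (mem_filter.1 hT').1, (mem_filter.1 hT').2, rfl⟩
  refine ⟨?_, ?_, ?_, ?_, h.pos, h.le_one⟩
  · intro T hT
    obtain ⟨T', hT', _, rfl⟩ := hmem T hT
    exact cons_mono (erase_subset _ _) (h.cons T' hT')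
  · intro T hT
    obtain ⟨T', hT', hlT, rfl⟩ := hmem T hT
    rw [disjoint_insert_right]
    constructor
    · rw [vs_erase_link (h.cons T' hT') hlT]
      exact notMem_erase _ _
    · exact (h.dis T' hT').mono_left (vs_mono (erase_subset _ _))
  · intro T hT T₁ hT₁ hne
    obtain ⟨T', hT', hlT, rfl⟩ := hmem T hT
    obtain ⟨T₁', hT₁', hlT₁, rfl⟩ := hmem T₁ hT₁
    have h1 := h.share T' hT' T₁' hT₁' (fun hc => hne (by rw [hc]))
    have h2 : vs (T'.erase l) ∩ vs (T₁'.erase l) = (vs T' ∩ vs T₁').erase l.1 := by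
      rw [vs_erase_link (h.cons T' hT') hlT, vs_erase_link (h.cons T₁' hT₁') hlT₁]
      ext i
      simp only [mem_inter, mem_erase]
      tauto
    have h3 : l.1 ∈ vs T' ∩ vs T₁' :=
      mem_inter.2 ⟨mem_vs.2 ⟨l, hlT, rfl⟩, mem_vs.2 ⟨l, hlT₁, rfl⟩⟩
    rw [h2, card_erase_of_mem h3]
    omega
  · intro C hC hCX hCt
    rw [disjoint_insert_right] at hCX
    have hlC : l ∉ C := fun hc => hCX.1 (mem_vs.2 ⟨l, hc, rfl⟩)
    have hvs : vs (insert l C) = insert l.1 (vs C) := by
      unfold vs
      rw [image_insert]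
    have h1 : (vs (insert l C)).card = (insert l C).card := by
      rw [hvs, card_insert_of_notMem hCX.1, card_insert_of_notMem hlC, hC]
    have h2 : Disjoint (vs (insert l C)) X := by
      rw [hvs, disjoint_insert_left]
      exact ⟨hl, hCX.2⟩
    have h3 : (insert l C).card ≤ t + 1 + 1 := by
      rw [card_insert_of_notMem hlC]
      omega
    have h4 := h.low (insert l C) h1 h2 h3
    have h5 : wF (insert l C) = 1 / 2 * wF C := by
      unfold wF
      rw [card_insert_of_notMem hlC, pow_succ]
      ring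
    have h6 : nn G (insert l C) ≤ 1 / 2 * nn (link G l) C := by
      have e1 : wF ({l} : Finset (Fin n × Bool)) = 1 / 2 := by
        unfold wF
        rw [card_singleton, pow_one]
      have h7 := mu_satT_le {l} (fun x : Fin n → Bool => SatT C x ∧ ∀ A ∈ link G l, ¬ SatT A x) (by
        intro i hi x
        have hi' : i = l.1 := by
          obtain ⟨l', hl', rfl⟩ := mem_vs.1 hi
          rw [mem_singleton.1 hl']
        subst hi'
        rw [satT_flp hCX.1]
        refine and_congr_right fun _ => ?_
        refine forall₂_congr fun A hA => ?_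
        obtain ⟨T', hT', hlT, rfl⟩ := hmem A hA
        rw [satT_flp]
        rw [vs_erase_link (h.cons T' hT') hlT]
        exact notMem_erase _ _)
      rw [e1] at h7
      refine le_trans ?_ h7
      unfold nn
      refine mu_mono fun x hx => ?_
      rw [decide_eq_true_iff] at hx ⊢
      have hlx : SatT {l} x := satT_mono (singleton_subset_iff.2 (mem_insert_self l C)) hx.1
      refine ⟨hlx, satT_mono (subset_insert l C) hx.1, ?_⟩
      intro A hA hc
      obtain ⟨T', hT', hlT, rfl⟩ := hmem A hA
      refine hx.2 T' hT' fun l' hl' => ?_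
      by_cases he : l' = l
      · rw [he]
        exact hlx l (mem_singleton_self l)
      · exact hc l' (mem_erase.2 ⟨he, hl'⟩)
    rw [h5] at h4
    have h8 := h4.trans h6
    have h9 : κ * (1 / 2 * wF C) = 1 / 2 * (κ * wF C) := by ring
    rw [h9] at h8
    linarith

theorem fam9_empty {t : ℕ} {κ : ℝ} (X : Finset (Fin n)) (h0 : 0 < κ) (h1 : κ ≤ 1) :
    Fam9 t κ X ∅ := by
  refine ⟨by simp, by simp, by simp, ?_, h0, h1⟩
  intro C hC _ _
  have e : nn (∅ : Finset (Finset (Fin n × Bool))) C = wF C := by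
    rw [← mu_sat1_eq hC]
    unfold nn
    refine mu_congr fun x => ?_
    simp
  rw [e]
  have := wF_pos C
  nlinarith

/-- The degree of a variable is at most the weight bound for smaller overlaps. -/
theorem dg_le_link (h : Fam9 (t + 1) κ X G) {B : ℝ}
    (hB : ∀ (X' : Finset (Fin n)) (G' : Finset (Finset (Fin n × Bool))), Fam9 t κ X' G' →
      tW G' ≤ B) (j : Fin n) : dg G j ≤ B := by
  have hB0 : 0 ≤ B := (tW_nonneg _).trans (hB X ∅ (fam9_empty X h.pos h.le_one))
  by_cases hj : j ∈ X
  · have e : dg G j = 0 := by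
      unfold dg
      rw [filter_false_of_mem, sum_empty]
      intro T hT hc
      exact disjoint_left.1 (h.dis T hT) hc hj
    rw [e]; exact hB0
  · have h1 := hB _ _ (link_fam h (l := (j, true)) hj)
    have h2 := hB _ _ (link_fam h (l := (j, false)) hj)
    have h3 : dg G j ≤ ∑ T ∈ G.filter (fun T => (j, true) ∈ T), wF T +
        ∑ T ∈ G.filter (fun T => (j, false) ∈ T), wF T := by
      unfold dg
      rw [← sum_union_inter]
      have h4 : G.filter (fun T => j ∈ vs T) ⊆
          G.filter (fun T => (j, true) ∈ T) ∪ G.filter (fun T => (j, false) ∈ T) := by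
        intro T hT
        rw [mem_filter] at hT
        rw [mem_union, mem_filter, mem_filter]
        obtain ⟨l, hl, hlj⟩ := mem_vs.1 hT.2
        obtain ⟨a, b⟩ := l
        simp only at hlj
        subst hlj
        cases b
        · exact Or.inr ⟨hT.1, hl⟩
        · exact Or.inl ⟨hT.1, hl⟩
      have h5 := sum_le_sum_of_subset_of_nonneg (f := fun T => wF T) h4
        (fun T _ _ => (wF_pos T).le)
      have h6 : 0 ≤ ∑ T ∈ G.filter (fun T => (j, true) ∈ T) ∩
          G.filter (fun T => (j, false) ∈ T), wF T := sum_nonneg fun T _ => (wF_pos T).le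
      linarith
    rw [sum_link, sum_link] at h3
    linarith

end Pool.Agent.H.MP_cba12a_lc
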