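import Pool.Agent.H.MP_cba12a_lc.S9.Det9

/-!
Candidates at a leaf.
-/

namespace Pool.Agent.H.MP_cba12a_lc

open Finset

variable {n m : ℕ}

/-- **Every needed term has a candidate.** -/
theorem cand9 {a r t N D L1 ℓ0 J k W : ℕ} {τ ν : ℝ} {δ lam : ℕ → ℝ} {f g : (Fin n → Bool) → Bool}
    {ω : Fin m → Fin n → Bool} {α : List Lit} {F : Finset (Finset (Fin n × Bool))}
    (hm : 0 < m) (ha : 1 ≤ a) (hτ : 0 < τ)
    (hαd : (α.map Prod.fst).Nodup) (hαn : ∀ l ∈ α, l.1 < n) (hαl : α.length ≤ (t + 1) * J)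
    (hgF : ∀ x, g x = true ↔ ∃ T ∈ F, SatT T x)
    (hfg : dst f g ≤ τ) (hrep : Rep f ω 0 τ)
    (hfam : Fam9 t (1 / (2 * (16 * a : ℕ))) (vs (toF n α)) (restr (toF n α) F))
    (hN2 : (2 * n + 1) ^ k ≤ N) (hN3 : (2 * n + 1) ^ r ≤ N)
    (hW : 2 ^ ((t + 1) * J) ≤ W) (hk : k = t * (t + 1) + 1) (hδ : ∀ ℓ : ℕ, ℓ0 ≤ ℓ → 0 < δ ℓ)
    (hlam : ∀ ℓ : ℕ, ℓ0 ≤ ℓ → 0 < lam ℓ)
    (hδL : ∀ ℓ : ℕ, ℓ0 ≤ ℓ → 2 ^ (t + 1) * ℓ * δ ℓ ≤ 1 / (64 * a))
    (hν : ∀ ℓ : ℕ, ℓ0 ≤ ℓ →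
      (k : ℝ) ^ (t + 2) * (2 ^ (t * (t + 2) * (t + 3)) * (δ ℓ / lam ℓ)) ≤ ν)
    (hD : 256 * a ≤ D) (hDν : 8 * D * ν ≤ 1 / (32 * a))
    (hDτ : 8 * D * (2 ^ k * (2 * τ)) * (W * 2 ^ L1) ≤ 1 / (32 * a))
    (hℓ : ∀ ℓ : ℕ, ℓ0 ≤ ℓ → (1 / 2 : ℝ) ^ ℓ ≤ lam ℓ * δ ℓ ^ (t + 1)) (hℓk : k ≤ ℓ0)
    (hgap : ∀ T ∈ F, T.card ≤ r ∨ ℓ0 + (t + 1) * J ≤ T.card)
    {T : Finset (Fin n × Bool)} (hT : T ∈ restr (toF n α) F)
    (hTr : ℓ0 ≤ T.card → ¬ Rich (restr (toF n α) F) t (lam T.card) T) (hTL : T.card ≤ L1) :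
    ∃ C ∈ cands6 N r k D n (smp f ω) α, ∀ x : Fin n → Bool,
      (sat (List.ofFn x) C = true ↔ sat (List.ofFn x) α = true ∧ SatT T x) := by
  classical
  have ha' : (1 : ℝ) ≤ a := by exact_mod_cast ha
  by_cases hTℓ : ℓ0 ≤ T.card
  · -- a long term
    have hgG : ∀ x, SatT (toF n α) x → (g x = true ↔ ∃ B ∈ restr (toF n α) F, SatT B x) := by
      intro x hx
      rw [hgF x, restr_spec hx]
    have hκ : (1 : ℝ) / (2 * ((16 * a : ℕ) : ℝ)) = 1 / (32 * a) := by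
      push_cast
      ring
    have hwt : (1 : ℝ) ≤ wt α * W := by
      have h1 : (2 : ℝ) ^ ((t + 1) * J) ≤ W := by exact_mod_cast hW
      have h2 : (2 : ℝ) ^ α.length ≤ 2 ^ ((t + 1) * J) := pow_le_pow_right₀ (by norm_num) hαl
      unfold wt
      calc (1 : ℝ) = (1 / 2) ^ α.length * 2 ^ α.length := by rw [← mul_pow]; norm_num
        _ ≤ (1 / 2) ^ α.length * W := mul_le_mul_of_nonneg_left (h2.trans h1) (by positivity)
    have hwF : (1 : ℝ) ≤ wF T * 2 ^ L1 := by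
      unfold wF
      calc (1 : ℝ) = (1 / 2) ^ T.card * 2 ^ T.card := by rw [← mul_pow]; norm_num
        _ ≤ (1 / 2) ^ T.card * 2 ^ L1 :=
          mul_le_mul_of_nonneg_left (pow_le_pow_right₀ (by norm_num) hTL) (by positivity)
    have hwt0 : 0 < wt α := by unfold wt; positivity
    have hwT := wF_pos T
    obtain ⟨C, hC, hCx⟩ := detect9 (N := N) (D := D) (k := k) (ν := ν) hm hfam hαd hαn hgG hT
      (hδ _ hTℓ) (hlam _ hTℓ) (hTr hTℓ) (hℓ _ hTℓ) hk (hℓk.trans hTℓ) (by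
        rw [hκ]
        refine (hδL _ hTℓ).trans (le_of_eq ?_)
        field_simp
        norm_num) (hν _ hTℓ) hτ hfg hrep (by
        rw [hκ]
        have h1 : (256 * a : ℝ) ≤ D := by exact_mod_cast hD
        rw [mul_one_div, le_div_iff₀ (by positivity)]
        linarith) (by rw [hκ]; exact hDν) (by
        rw [hκ]
        set q : ℝ := 8 * D * (2 ^ k * (2 * τ)) with hq
        have hq0 : 0 ≤ q := by rw [hq]; positivity
        have h1 : (1 : ℝ) ≤ (wt α * W) * (wF T * 2 ^ L1) := by nlinarith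
        calc q ≤ q * ((wt α * W) * (wF T * 2 ^ L1)) := le_mul_of_one_le_right hq0 h1
          _ = (wt α * wF T) * (q * (W * 2 ^ L1)) := by ring
          _ ≤ (wt α * wF T) * (1 / (32 * a)) :=
            mul_le_mul_of_nonneg_left hDτ (by positivity)) hN2
    exact ⟨C, List.mem_append_right _ hC, hCx⟩
  · -- a short term
    have hTr' : T.card ≤ r := by
      have hT' := hT
      unfold restr at hT'
      obtain ⟨T0, hT0, hT0T⟩ := mem_image.1 hT'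
      rw [mem_filter] at hT0
      have h1 := card_outs_add (X := vs (toF n α)) hT0.2.1
      rw [hT0T] at h1
      have h2 : (vs (toF n α)).card = α.length := vs_toF_card hαd hαn
      have h3 : T.card ≤ T0.card := by
        rw [← hT0T]
        exact card_le_card (outs_sub _ _)
      rcases hgap T0 hT0.1 with h4 | h4
      · omega
      · omega
    refine ⟨lits T ++ α, List.mem_append_left _ ?_, ?_⟩
    · unfold shortC
      refine List.mem_map.2 ⟨lits T, ?_, rfl⟩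
      exact mem_seeds (by rw [length_allLits]; exact hN3) (by rw [length_lits]; exact hTr')
        (fun l hl => mem_allLits.2 (lits_lt hl))
    · intro x
      rw [sat_append, sat_lits, and_comm]

end Pool.Agent.H.MP_cba12a_lc
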