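import Pool.Agent.H.MP_cba12a_lc.S9.Fam9

/-!
Sum of the degrees over a set of variables.
-/

namespace Pool.Agent.H.MP_cba12a_lc

open Finset

variable {n : ℕ} {t : ℕ} {G : Finset (Finset (Fin n × Bool))}

/-- Terms with more than `t` variables in `V`, any two sharing at most `t` variables: there are at
most `V.card ^ (t + 1)` of them. -/
theorem card_shareV_le (hshare : ∀ T ∈ G, ∀ T' ∈ G, T ≠ T' → (vs T ∩ vs T').card ≤ t)
    {V : Finset (Fin n)} (hV : ∀ T ∈ G, t + 1 ≤ (vs T ∩ V).card) :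
    G.card ≤ V.card ^ (t + 1) := by
  classical
  have hch : ∀ T : Finset (Fin n × Bool), ∃ S : Finset (Fin n), T ∈ G → S ⊆ vs T ∩ V ∧
      S.card = t + 1 := by
    intro T
    by_cases hT : T ∈ G
    · obtain ⟨S, hS, hc⟩ := exists_subset_card_eq (hV T hT)
      exact ⟨S, fun _ => ⟨hS, hc⟩⟩
    · exact ⟨∅, fun h => absurd h hT⟩
  choose S hS using hch
  calc G.card ≤ (powersetCard (t + 1) V).card := by
        refine card_le_card_of_injOn S ?_ ?_
        · intro T hT
          rw [mem_coe, mem_powersetCard]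
          exact ⟨(hS T hT).1.trans inter_subset_right, (hS T hT).2⟩
        · intro T hT T' hT' hSS
          by_contra hne
          have h1 := hshare T hT T' hT' hne
          have h2 : S T ⊆ vs T ∩ vs T' := subset_inter ((hS T hT).1.trans inter_subset_left)
            (hSS ▸ ((hS T' hT').1.trans inter_subset_left))
          have h3 := card_le_card h2
          rw [(hS T hT).2] at h3
          omega
    _ = V.card.choose (t + 1) := by rw [card_powersetCard]
    _ ≤ V.card ^ (t + 1) := Nat.choose_le_pow V.card (t + 1)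

/-- An elementary inequality. -/
theorem mul_half_pow_le {s h : ℕ} (hs : 2 * h ≤ s) :
    (s : ℝ) * (1 / 2) ^ s ≤ 2 * (1 / 2) ^ h := by
  obtain ⟨i, rfl⟩ := Nat.exists_eq_add_of_le hs
  have h1 : 2 * h + i ≤ 2 ^ (h + i + 1) := by
    have h2 : h + i < 2 ^ (h + i) := Nat.lt_two_pow_self
    rw [pow_succ]
    omega
  have h3 : ((2 * h + i : ℕ) : ℝ) ≤ 2 ^ (h + i + 1) := by exact_mod_cast h1
  calc ((2 * h + i : ℕ) : ℝ) * (1 / 2) ^ (2 * h + i)
      ≤ 2 ^ (h + i + 1) * (1 / 2) ^ (2 * h + i) :=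
        mul_le_mul_of_nonneg_right h3 (by positivity)
    _ = 2 * (1 / 2) ^ h := by
        rw [show 2 * h + i = (h + i) + h by ring, pow_add (1 / 2 : ℝ) (h + i) h, pow_succ]
        have h4 : (2 : ℝ) ^ (h + i) * (1 / 2) ^ (h + i) = 1 := by
          rw [← mul_pow]; norm_num
        calc (2 : ℝ) ^ (h + i) * 2 * ((1 / 2) ^ (h + i) * (1 / 2) ^ h)
            = ((2 : ℝ) ^ (h + i) * (1 / 2) ^ (h + i)) * (2 * (1 / 2) ^ h) := by ring
          _ = 2 * (1 / 2) ^ h := by rw [h4, one_mul]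

/-- The sum of the degrees over `V`. -/
theorem dgV_le (hshare : ∀ T ∈ G, ∀ T' ∈ G, T ≠ T' → (vs T ∩ vs T').card ≤ t)
    (V : Finset (Fin n)) {h : ℕ} (hh : t ≤ 2 * h) :
    ∑ j ∈ V, dg G j ≤ 2 * h * tW G + 2 * (V.card : ℝ) ^ (t + 1) * (1 / 2) ^ h := by
  classical
  have h1 : ∑ j ∈ V, dg G j = ∑ T ∈ G, ((vs T ∩ V).card : ℝ) * wF T := by
    unfold dg
    simp only [sum_filter]
    rw [sum_comm]
    refine sum_congr rfl fun T _ => ?_
    rw [← sum_filter, sum_const, nsmul_eq_mul]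
    congr 2
    rw [filter_mem_eq_inter, inter_comm]
  rw [h1]
  set GB := G.filter fun T => 2 * h < (vs T ∩ V).card with hGB
  have hcard : (GB.card : ℝ) ≤ (V.card : ℝ) ^ (t + 1) := by
    have h2 : GB.card ≤ V.card ^ (t + 1) := by
      refine card_shareV_le (G := GB) (fun T hT T' hT' hne =>
        hshare T (mem_filter.1 hT).1 T' (mem_filter.1 hT').1 hne) fun T hT => ?_
      have := (mem_filter.1 hT).2
      omega
    exact_mod_cast h2
  have h3 : ∀ T ∈ G, ((vs T ∩ V).card : ℝ) * wF T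
      ≤ 2 * h * wF T + (if 2 * h < (vs T ∩ V).card then 2 * (1 / 2 : ℝ) ^ h else 0) := by
    intro T _
    have hw := (wF_pos T).le
    split_ifs with hc
    · have h4 : ((vs T ∩ V).card : ℝ) * wF T
          ≤ ((vs T ∩ V).card : ℝ) * (1 / 2) ^ (vs T ∩ V).card := by
        refine mul_le_mul_of_nonneg_left ?_ (by positivity)
        unfold wF
        refine pow_le_pow_of_le_one (by norm_num) (by norm_num) ?_
        exact (card_le_card inter_subset_left).trans (vs_card_le T)
      have h5 := mul_half_pow_le (s := (vs T ∩ V).card) (h := h) hc.le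
      have h6 : 0 ≤ 2 * (h : ℝ) * wF T := by positivity
      linarith
    · have h4 : ((vs T ∩ V).card : ℝ) ≤ 2 * h := by
        have : (vs T ∩ V).card ≤ 2 * h := by omega
        exact_mod_cast this
      have := mul_le_mul_of_nonneg_right h4 hw
      linarith
  refine (sum_le_sum h3).trans ?_
  rw [sum_add_distrib, ← mul_sum, ← sum_filter, sum_const, nsmul_eq_mul]
  have h7 : (GB.card : ℝ) * (2 * (1 / 2 : ℝ) ^ h)
      ≤ (V.card : ℝ) ^ (t + 1) * (2 * (1 / 2 : ℝ) ^ h) :=
    mul_le_mul_of_nonneg_right hcard (by positivity)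
  have h8 : 2 * (h : ℝ) * ∑ T ∈ G, wF T = 2 * h * tW G := rfl
  rw [h8]
  have h9 : (V.card : ℝ) ^ (t + 1) * (2 * (1 / 2 : ℝ) ^ h)
      = 2 * (V.card : ℝ) ^ (t + 1) * (1 / 2) ^ h := by ring
  rw [← h9]
  exact add_le_add le_rfl h7

end Pool.Agent.H.MP_cba12a_lc
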