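import Pool.Agent.H.MP_cba12a_lc.S9.Sig9

/-!
Detection of a long term at a leaf, with parameters that depend on the length of the term.
-/

namespace Pool.Agent.H.MP_cba12a_lc

open Finset

variable {n m : ℕ}

variable {t N D k : ℕ} {κ lam δ τ ν : ℝ} {ω : Fin m → Fin n → Bool}
  {f g : (Fin n → Bool) → Bool} {α : List Lit} {G : Finset (Finset (Fin n × Bool))}
  {T : Finset (Fin n × Bool)}

/-- **Detection of a long term.** -/
theorem detect9 (hm : 0 < m) (h : Fam9 t κ (vs (toF n α)) G)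
    (hαd : (α.map Prod.fst).Nodup) (hαn : ∀ l ∈ α, l.1 < n)
    (hgG : ∀ x, SatT (toF n α) x → (g x = true ↔ ∃ B ∈ G, SatT B x))
    (hT : T ∈ G) (hδ : 0 < δ) (hlam : 0 < lam) (hTr : ¬ Rich G t lam T)
    (hlen : wF T ≤ lam * δ ^ (t + 1)) (hk : k = t * (t + 1) + 1) (hkT : k ≤ T.card)
    (hδL : 2 ^ (t + 1) * T.card * δ ≤ κ / 2)
    (hν : (k : ℝ) ^ (t + 2) * (2 ^ (t * (t + 2) * (t + 3)) * (δ / lam)) ≤ ν)
    (hτ : 0 < τ) (hfg : dst f g ≤ τ) (hrep : Rep f ω 0 τ)
    (hD : 8 ≤ D * κ) (hDν : 8 * D * ν ≤ κ)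
    (hDτ : 8 * D * (2 ^ k * (2 * τ)) ≤ wt α * wF T * κ)
    (hN : (2 * n + 1) ^ k ≤ N) :
    ∃ C ∈ longC N k D (allLits n) (smp f ω) α, ∀ x : Fin n → Bool,
      (sat (List.ofFn x) C = true ↔ sat (List.ofFn x) α = true ∧ SatT T x) := by
  classical
  have hκ := h.pos
  have hκ1 := h.le_one
  have hD1 : (1 : ℝ) ≤ D := by nlinarith [show (0 : ℝ) ≤ D by positivity]
  have hD1' : 1 ≤ D := by exact_mod_cast hD1
  obtain ⟨R0, hR0, hR0k⟩ := exists_subset_card_eq hkT
  have hTc := h.cons T hT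
  have hinj := inj_of_card hTc
  have hRc : (vs R0).card = R0.card := cons_mono hR0 hTc
  have hTX := h.dis T hT
  have hwt0 : 0 < wt α := by unfold wt; positivity
  have hwT := wF_pos T
  have hW : 0 < wt α * wF T := mul_pos hwt0 hwT
  have hfew := few_big hδ hlam hTr hlen
  -- noise
  have hnoise : mu (fun x => decide (∀ j ∈ vs R0, Covd G T (vs R0) j x)) ≤ wF T * ν := by
    have h1 := cov_le h.toFam' hT hδ hlam hTr hlen (vs_mono hR0) (by rw [hRc, hR0k, hk]; omega)
    rw [hRc, hR0k] at h1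
    refine h1.trans ?_
    have h2 := mul_le_mul_of_nonneg_left hν hwT.le
    refine le_trans (le_of_eq ?_) h2
    ring
  set e : ℝ := 2 ^ k * (2 * τ) + wt α * (wF T * ν) with he
  have he0 : 0 ≤ e := by
    have h1 : 0 ≤ ν := le_trans (by positivity) hν
    rw [he]
    positivity
  have h4De : 4 * D * e ≤ wt α * wF T * κ := by
    have h1 : 8 * D * (wt α * (wF T * ν)) ≤ wt α * wF T * κ := by
      calc 8 * D * (wt α * (wF T * ν)) = (wt α * wF T) * (8 * D * ν) := by ring
        _ ≤ _ := mul_le_mul_of_nonneg_left hDν hW.le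
    rw [he]
    linarith
  have happ : ∀ Z : List Lit, (∀ l ∈ Z, l.1 < n) → (∀ l ∈ Z, ∀ j ∈ vs R0, l.1 ≠ (j : ℕ)) →
      (∀ l ∈ α, l ∈ Z) →
      |Sg (fun C => em ω (ev f true (C ++ Z) [])) k (lits R0) - mu (ET G T Z)| ≤ e :=
    fun Z h1 h2 h3 => Sg_approx h.toFam' hαd hαn hgG hT hR0 hR0k hnoise hτ hfg hrep h1 h2 h3
  have hαR : ∀ l ∈ α, ∀ j ∈ vs R0, l.1 ≠ (j : ℕ) := by
    intro l hl j hj hc
    refine disjoint_left.1 hTX (vs_mono hR0 hj) (mem_vs_toF.2 ?_)
    exact List.mem_map.2 ⟨l, hl, hc⟩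
  -- the signal
  set s : ℝ := mu (ET G T α) with hs
  have hinvO : ∀ i ∈ vs (toF n α), ∀ x, (∀ A ∈ G, A ≠ T → ¬ SatT A (flp i x)) ↔
      (∀ A ∈ G, A ≠ T → ¬ SatT A x) := by
    intro i hi x
    refine forall₂_congr fun A hA => forall_congr' fun _ => not_congr (satT_flp ?_ x)
    exact fun hc => disjoint_left.1 (h.dis A hA) hc hi
  have hinvT : ∀ i ∈ vs (toF n α), ∀ x, SatT T (flp i x) ↔ SatT T x := fun i hi x =>
    satT_flp (fun hc => disjoint_left.1 hTX hc hi) x
  have hs_eq : s = wt α * mu (fun x => decide (SatT T x ∧ ∀ A ∈ G, A ≠ T → ¬ SatT A x)) := by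
    rw [hs, ← mu_leaf_and hαd hαn (fun x => SatT T x ∧ ∀ A ∈ G, A ≠ T → ¬ SatT A x)
      (fun i hi x => and_congr (hinvT i hi x) (hinvO i hi x))]
    refine mu_congr fun x => ?_
    rw [ET_iff, decide_eq_true_iff]
  have hs_up : s ≤ wt α * wF T := by
    rw [hs_eq]
    refine mul_le_mul_of_nonneg_left (le_trans (mu_mono fun x hx => ?_) (mu_sat1_le T))
      hwt0.le
    rw [decide_eq_true_iff] at hx ⊢
    exact hx.1
  have hs_lo : wt α * wF T * κ ≤ 2 * s := by
    have h1 := signal_lower9 h hT (E := ∅) (by simp [vs]) (by simp) (by simp [vs])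
      (by simp [vs]) hδ hfew
    have h2 : wF (∅ : Finset (Fin n × Bool)) = 1 := by simp [wF]
    rw [h2, mul_one] at h1
    have h3 : mu (fun x => decide (SatT T x ∧ SatT (∅ : Finset (Fin n × Bool)) x ∧
        ∀ A ∈ G, A ≠ T → ¬ SatT A x)) =
        mu (fun x => decide (SatT T x ∧ ∀ A ∈ G, A ≠ T → ¬ SatT A x)) := by
      refine mu_congr fun x => ?_
      rw [decide_eq_true_iff, decide_eq_true_iff]
      constructor
      · rintro ⟨a, _, b⟩; exact ⟨a, b⟩
      · rintro ⟨a, b⟩; exact ⟨a, fun l hl => absurd hl (notMem_empty _), b⟩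
    rw [h3] at h1
    rw [hs_eq]
    have h4 : wF T * (κ / 2) ≤ wF T * (κ - 2 ^ (t + 1) * T.card * δ) :=
      mul_le_mul_of_nonneg_left (by linarith) hwT.le
    have h5 := mul_le_mul_of_nonneg_left (h4.trans h1) hwt0.le
    linarith
  -- a literal off `T`
  have hoff : ∀ l : Fin n × Bool, l ∉ T → l.1 ∉ vs (toF n α) →
      4 * mu (ET G T (((l.1 : ℕ), l.2) :: α)) ≤ 4 * s - wt α * wF T * κ := by
    intro l hlT hlX
    by_cases hlv : l.1 ∈ vs T
    · have h1 : mu (ET G T (((l.1 : ℕ), l.2) :: α)) = 0 := by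
        unfold mu ct
        rw [filter_false_of_mem]
        · simp
        · intro x _ hx
          rw [ET_iff, sat_cons, getElem?_ofFn] at hx
          obtain ⟨l', hl', he'⟩ := mem_vs.1 hlv
          have h2 := hx.2.1 l' hl'
          rw [he'] at h2
          have h3 : x l.1 = l.2 := hx.1.1.2
          exact hlT (by
            have : l = l' := Prod.ext he'.symm (by rw [← h3, ← h2])
            rw [this]; exact hl')
      have h0 : 0 ≤ s := mu_nonneg _
      rw [h1]
      linarith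
    · have h1 := signal_lower9 h hT (E := {(l.1, !l.2)}) (by simp [vs]) (by simp)
        (by simpa [vs] using hlv) (by simpa [vs] using hlX) hδ hfew
      have h2 : wF ({(l.1, !l.2)} : Finset (Fin n × Bool)) = 1 / 2 := by simp [wF]
      rw [h2] at h1
      have h3 : mu (ET G T α) = mu (ET G T (((l.1 : ℕ), l.2) :: α)) +
          mu (ET G T (((l.1 : ℕ), !l.2) :: α)) := by
        refine mu_eq_add ?_ ?_
        · intro x
          rw [ET_iff, ET_iff, ET_iff, sat_cons, sat_cons, getElem?_ofFn, getElem?_ofFn]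
          constructor
          · rintro ⟨a, b⟩
            rcases Bool.eq_or_eq_not (x l.1) l.2 with h4 | h4
            · exact Or.inl ⟨⟨⟨l.1.2, h4⟩, a⟩, b⟩
            · exact Or.inr ⟨⟨⟨l.1.2, h4⟩, a⟩, b⟩
          · rintro (⟨⟨_, a⟩, b⟩ | ⟨⟨_, a⟩, b⟩) <;> exact ⟨a, b⟩
        · rintro x ⟨h4, h5⟩
          rw [ET_iff, sat_cons, getElem?_ofFn] at h4 h5
          have h6 : x l.1 = l.2 := h4.1.1.2
          have h7 : x l.1 = !l.2 := h5.1.1.2
          rw [h6] at h7
          cases l.2 <;> simp at h7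
      have h4 : mu (ET G T (((l.1 : ℕ), !l.2) :: α)) = wt α * mu (fun x =>
          decide (SatT T x ∧ SatT {(l.1, !l.2)} x ∧ ∀ A ∈ G, A ≠ T → ¬ SatT A x)) := by
        rw [← mu_leaf_and hαd hαn (fun x => SatT T x ∧ SatT {(l.1, !l.2)} x ∧
          ∀ A ∈ G, A ≠ T → ¬ SatT A x) (fun i hi x => and_congr (hinvT i hi x)
            (and_congr (satT_flp (by
              intro hc
              rw [mem_vs] at hc
              obtain ⟨l', hl', he'⟩ := hc
              rw [mem_singleton] at hl'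
              rw [hl'] at he'
              exact hlX (he' ▸ hi)) x) (hinvO i hi x)))]
        refine mu_congr fun x => ?_
        rw [ET_iff, decide_eq_true_iff, sat_cons, getElem?_ofFn]
        unfold SatT
        simp only [mem_singleton, forall_eq]
        constructor
        · rintro ⟨⟨⟨_, a⟩, b⟩, c, d⟩; exact ⟨b, c, a, d⟩
        · rintro ⟨b, c, a, d⟩; exact ⟨⟨⟨l.1.2, a⟩, b⟩, c, d⟩
      have h5 : wF T * (1 / 2) * (κ / 2) ≤ wF T * (1 / 2) * (κ - 2 ^ (t + 1) * T.card * δ) :=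
        mul_le_mul_of_nonneg_left (by linarith) (by positivity)
      have h6 := mul_le_mul_of_nonneg_left (h5.trans h1) hwt0.le
      rw [← h4] at h6
      rw [← hs] at h3
      linarith
  have hMα := abs_le.1 (happ α hαn hαR fun l hl => hl)
  rw [← hs] at hMα
  have hMl : ∀ l : Lit, l.1 < n → (∀ l' ∈ lits R0 ++ α, l'.1 ≠ l.1) →
      |Sg (fun C => em ω (ev f true (C ++ (l :: α)) [])) k (lits R0) -
        mu (ET G T (l :: α))| ≤ e := by
    intro l hln hl
    refine happ (l :: α) ?_ ?_ ?_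
    · intro l' hl'
      rcases List.mem_cons.1 hl' with rfl | hl'
      · exact hln
      · exact hαn l' hl'
    · intro l' hl' j hj
      rcases List.mem_cons.1 hl' with rfl | hl'
      · obtain ⟨l'', hl'', rfl⟩ := mem_vs.1 hj
        exact (hl _ (List.mem_append.2 (Or.inl (mem_lits.2 ⟨l'', hl'', rfl⟩)))).symm
      · exact hαR l' hl' j hj
    · intro l' hl'
      exact List.mem_cons_of_mem _ hl'
  have hext : ∀ l : Lit, l ∈ ext6 k D (allLits n) (smp f ω) α (lits R0) ↔
      (l ∈ lits T ∧ l ∉ lits R0) := by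
    intro l
    rw [mem_ext6 hD1' hm, mem_allLits]
    constructor
    · rintro ⟨hln, hl, htest⟩
      have hM := abs_le.1 (hMl l hln hl)
      have hlX : (⟨l.1, hln⟩ : Fin n) ∉ vs (toF n α) := by
        rw [mem_vs_toF, List.mem_map]
        rintro ⟨l', hl', he'⟩
        exact hl l' (List.mem_append.2 (Or.inr hl')) he'
      refine ⟨?_, fun hc => hl l (List.mem_append.2 (Or.inl hc)) rfl⟩
      by_contra hcon
      have hlT : ((⟨l.1, hln⟩ : Fin n), l.2) ∉ T := by
        intro hc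
        exact hcon (mem_lits.2 ⟨_, hc, rfl⟩)
      have h1 := hoff (⟨l.1, hln⟩, l.2) hlT hlX
      have h1' : 4 * mu (ET G T (l :: α)) ≤ 4 * s - wt α * wF T * κ := h1
      -- D (s - c + e) < (D - 1) (s - e)
      have h2 : D * Sg (fun C => em ω (ev f true (C ++ (l :: α)) [])) k (lits R0) ≤
          D * (s - wt α * wF T * κ / 4 + e) :=
        mul_le_mul_of_nonneg_left (by linarith [hM.2]) (by linarith)
      have h3 : ((D : ℝ) - 1) * (s - e) ≤
          ((D : ℝ) - 1) * Sg (fun C => em ω (ev f true (C ++ α) [])) k (lits R0) :=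
        mul_le_mul_of_nonneg_left (by linarith [hMα.1]) (by linarith)
      have h4 : (wt α * wF T) * 8 ≤ (wt α * wF T) * (D * κ) :=
        mul_le_mul_of_nonneg_left hD hW.le
      have h5 : 0 ≤ e := he0
      have h6 : wt α * wF T * κ ≤ wt α * wF T := mul_le_of_le_one_right hW.le hκ1
      nlinarith
    · rintro ⟨hlT, hlR⟩
      obtain ⟨l', hl', rfl⟩ := mem_lits.1 hlT
      have hl'R : l' ∉ R0 := fun hc => hlR (mem_lits.2 ⟨l', hc, rfl⟩)
      have hvar : ∀ l'' ∈ lits R0 ++ α, l''.1 ≠ (l'.1 : ℕ) := by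
        intro l'' hl'' hc
        rcases List.mem_append.1 hl'' with h1 | h1
        · obtain ⟨l3, hl3, rfl⟩ := mem_lits.1 h1
          have h2 : l3.1 = l'.1 := Fin.ext hc
          have := hinj (by simpa using hR0 hl3) (by simpa using hl') h2
          exact hl'R (this ▸ hl3)
        · refine disjoint_left.1 hTX (mem_vs.2 ⟨l', hl', rfl⟩) (mem_vs_toF.2 ?_)
          exact List.mem_map.2 ⟨l'', h1, hc⟩
      refine ⟨l'.1.2, hvar, ?_⟩
      have hM := abs_le.1 (hMl ((l'.1 : ℕ), l'.2) l'.1.2 hvar)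
      have h1 : mu (ET G T (((l'.1 : ℕ), l'.2) :: α)) = s := by
        rw [hs]
        refine mu_congr fun x => ?_
        rw [ET_iff, ET_iff, sat_cons, getElem?_ofFn]
        constructor
        · rintro ⟨⟨_, a⟩, b⟩; exact ⟨a, b⟩
        · rintro ⟨a, b, c⟩; exact ⟨⟨⟨l'.1.2, b l' hl'⟩, a⟩, b, c⟩
      rw [h1] at hM
      have h2 : D * (s - e) ≤
          D * Sg (fun C => em ω (ev f true (C ++ (((l'.1 : ℕ), l'.2) :: α)) [])) k (lits R0) :=
        mul_le_mul_of_nonneg_left (by linarith [hM.1]) (by linarith)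
      have h3 : ((D : ℝ) - 1) *
          Sg (fun C => em ω (ev f true (C ++ α) [])) k (lits R0) ≤ ((D : ℝ) - 1) * (s + e) :=
        mul_le_mul_of_nonneg_left (by linarith [hMα.2]) (by linarith)
      nlinarith
  refine ⟨lits R0 ++ (ext6 k D (allLits n) (smp f ω) α (lits R0) ++ α), ?_, ?_⟩
  · unfold longC
    rw [List.mem_map]
    refine ⟨lits R0, mem_seeds ?_ ?_ ?_, rfl⟩
    · rw [length_allLits]; exact hN
    · rw [length_lits, hR0k]
    · exact fun l hl => mem_allLits.2 (lits_lt hl)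
  · intro x
    rw [sat_append, sat_append]
    constructor
    · rintro ⟨h1, h2, h3⟩
      refine ⟨h3, ?_⟩
      rw [← sat_lits, sat_iff]
      intro l hl
      by_cases hlR : l ∈ lits R0
      · exact sat_iff.1 h1 l hlR
      · exact sat_iff.1 h2 l ((hext l).2 ⟨hl, hlR⟩)
    · rintro ⟨h3, h1⟩
      refine ⟨sat_lits.2 (satT_mono hR0 h1), ?_, h3⟩
      rw [sat_iff]
      intro l hl
      exact sat_iff.1 (sat_lits.2 h1) l ((hext l).1 hl).1

end Pool.Agent.H.MP_cba12a_lc
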