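import Pool.Agent.H.MP_cba12a_lc.Cand6

/-!
Families of terms of which any two share at most `t` variables, without a bound on the lengths of
the terms.
-/

namespace Pool.Agent.H.MP_cba12a_lc

open Finset

variable {n : ℕ}

/-- the situation at a leaf, without a bound on the lengths of the terms -/
structure Fam9 (t : ℕ) (κ : ℝ) (X : Finset (Fin n)) (G : Finset (Finset (Fin n × Bool))) :
    Prop where
  cons : ∀ T ∈ G, (vs T).card = T.card
  dis : ∀ T ∈ G, Disjoint (vs T) X
  share : ∀ T ∈ G, ∀ T' ∈ G, T ≠ T' → (vs T ∩ vs T').card ≤ t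
  low : ∀ C : Finset (Fin n × Bool), (vs C).card = C.card → Disjoint (vs C) X →
    C.card ≤ t + 1 → κ * wF C ≤ nn G C
  pos : 0 < κ
  le_one : κ ≤ 1

variable {t L : ℕ} {κ : ℝ} {X : Finset (Fin n)} {G G' : Finset (Finset (Fin n × Bool))}

theorem Fam.to9 (h : Fam t L κ X G) : Fam9 t κ X G :=
  ⟨h.cons, h.dis, h.share, h.low, h.pos, h.le_one⟩

theorem Fam9.toFam (h : Fam9 t κ X G) (hL : 1 ≤ L) (hlen : ∀ T ∈ G, T.card ≤ L) :
    Fam t L κ X G :=
  ⟨h.cons, h.dis, hlen, h.share, h.low, h.pos, h.le_one, hL⟩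

theorem nn_anti (hG : G' ⊆ G) (C : Finset (Fin n × Bool)) : nn G C ≤ nn G' C := by
  unfold nn
  refine mu_mono fun x hx => ?_
  rw [decide_eq_true_iff] at hx ⊢
  exact ⟨hx.1, fun A hA => hx.2 A (hG hA)⟩

theorem Fam9.sub (h : Fam9 t κ X G) (hG : G' ⊆ G) : Fam9 t κ X G' :=
  ⟨fun T hT => h.cons T (hG hT), fun T hT => h.dis T (hG hT),
    fun T hT T' hT' => h.share T (hG hT) T' (hG hT'),
    fun C h1 h2 h3 => (h.low C h1 h2 h3).trans (nn_anti hG C), h.pos, h.le_one⟩

/-- the length of a term is at most the number of variables -/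
theorem Fam9.card_le (h : Fam9 t κ X G) {T : Finset (Fin n × Bool)} (hT : T ∈ G) :
    T.card ≤ n := by
  rw [← h.cons T hT]
  exact (card_le_univ _).trans (by simp)

theorem Fam9.toFam' (h : Fam9 t κ X G) : Fam t (n + 1) κ X G :=
  h.toFam (by omega) fun T hT => (h.card_le hT).trans (by omega)

/-- the terms are long -/
theorem Fam9.long (h : Fam9 t κ X G) {T : Finset (Fin n × Bool)} (hT : T ∈ G) :
    t + 2 ≤ T.card := h.toFam'.long T hT

/-- total weight -/
noncomputable def tW (G : Finset (Finset (Fin n × Bool))) : ℝ := ∑ T ∈ G, wF T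

theorem tW_nonneg (G : Finset (Finset (Fin n × Bool))) : 0 ≤ tW G :=
  sum_nonneg fun T _ => (wF_pos T).le

end Pool.Agent.H.MP_cba12a_lc
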