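import Pool.Agent.H.MP_cba12a_lc.S9.Fam9

/-!
Second moments of the terms with few variables of large degree.
-/

namespace Pool.Agent.H.MP_cba12a_lc

open Finset

variable {n : ℕ}

variable {t : ℕ} {κ : ℝ} {X : Finset (Fin n)} {G G' : Finset (Finset (Fin n × Bool))}

/-- the expected number of terms above the empty term is the total weight -/
theorem wS_empty9 (G : Finset (Finset (Fin n × Bool))) : wS G ∅ = tW G := by
  unfold wS tW
  rw [filter_true_of_mem (fun T _ => empty_subset T)]
  simp

theorem sdiff_eq_left9 {A B : Finset (Fin n × Bool)} (h : ∀ j ∈ vs B, j ∉ vs A) : A \ B = A := by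
  rw [Finset.sdiff_eq_self_iff_disjoint, disjoint_left]
  intro l hl hl'
  exact h l.1 (mem_vs.2 ⟨l, hl', rfl⟩) (mem_vs.2 ⟨l, hl, rfl⟩)

/-- disjoint terms have total weight at most `1 / κ` -/
theorem tW_zero (h : Fam9 0 κ X G) : tW G ≤ 1 / κ := by
  have h1 : ∀ T ∈ G, ∅ ⊆ T → zS G ∅ T ≤ wS G ∅ + 0 := by
    intro T hT _
    rw [add_zero]
    unfold zS wS
    refine le_trans (sum_le_sum (g := fun T' => wF (T' \ ∅)) ?_) ?_
    · intro T' hT'
      rw [mem_erase, mem_filter] at hT'
      have h2 := h.share T' hT'.2.1 T hT hT'.1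
      have h3 : vs T' ∩ vs T = ∅ := card_eq_zero.1 (by omega)
      rw [sdiff_empty, sdiff_eq_left9]
      intro j hj hj'
      have : j ∈ vs T' ∩ vs T := mem_inter.2 ⟨hj', hj⟩
      rw [h3] at this
      exact absurd this (notMem_empty j)
    · exact sum_le_sum_of_subset_of_nonneg (erase_subset _ _) fun T' _ _ => (wF_pos _).le
  have h2 := wS_le h.toFam' (S := ∅) (c := 0) le_rfl (by simp) h1
  rw [wS_empty9, add_zero] at h2
  exact h2

/-- the total weight of the terms with at most `t` variables of large degree is bounded -/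
theorem good_le (h : Fam9 t κ X G) {B : ℝ} (hB0 : 0 ≤ B) (hB : ∀ j, dg G j ≤ B) (hG' : G' ⊆ G)
    (hgood : ∀ T ∈ G', ((vs T).filter fun j => 1 / (T.card : ℝ) < dg G j).card ≤ t) :
    tW G' ≤ (1 + 2 ^ t * (t * B + 1)) / κ := by
  classical
  have hz : ∀ T ∈ G', ∅ ⊆ T → zS G' ∅ T ≤ wS G' ∅ + 2 ^ t * (t * B + 1) := by
    intro T hT _
    have hTc := h.cons T (hG' hT)
    -- the degrees of the variables of `T`
    have hdeg : ∑ j ∈ vs T, dg G j ≤ t * B + 1 := by
      rw [← sum_filter_add_sum_filter_not (vs T) (fun j => 1 / (T.card : ℝ) < dg G j)]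
      refine add_le_add ?_ ?_
      · refine (sum_le_card_nsmul _ _ B fun j _ => hB j).trans ?_
        rw [nsmul_eq_mul]
        refine mul_le_mul_of_nonneg_right ?_ hB0
        exact_mod_cast hgood T hT
      · refine (sum_le_card_nsmul _ _ (1 / (T.card : ℝ)) fun j hj =>
          not_lt.1 (mem_filter.1 hj).2).trans ?_
        rw [nsmul_eq_mul]
        have h1 : (((vs T).filter fun j => ¬ 1 / (T.card : ℝ) < dg G j).card : ℝ) ≤ T.card := by
          rw [← hTc]
          exact_mod_cast card_le_card (filter_subset _ _)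
        refine (mul_le_mul_of_nonneg_right h1 (by positivity)).trans ?_
        rw [mul_one_div]
        exact div_self_le_one _
    -- one term
    have key : ∀ T' ∈ (G'.filter fun T => ∅ ⊆ T).erase T, wF (T' \ T) ≤ wF (T' \ ∅) +
        ∑ j ∈ vs T, if j ∈ vs T' then 2 ^ t * wF T' else 0 := by
      intro T' hT'
      rw [mem_erase, mem_filter] at hT'
      have hnn : ∀ j ∈ vs T, (0 : ℝ) ≤ if j ∈ vs T' then 2 ^ t * wF T' else 0 := by
        intro j _
        split_ifs
        · exact mul_nonneg (by positivity) (wF_pos _).le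
        · exact le_rfl
      by_cases hex : ∃ j ∈ vs T, j ∈ vs T'
      · obtain ⟨j, hj, hj'⟩ := hex
        have h1 := single_le_sum (f := fun j => if j ∈ vs T' then 2 ^ t * wF T' else 0) hnn hj
        simp only [hj', if_true] at h1
        have h2 : wF (T' \ T) ≤ 2 ^ t * wF T' := by
          have h3 : (T' ∩ T).card ≤ t :=
            (card_lit_inter_le (h.cons T' (hG' hT'.2.1))).trans
              (h.share T' (hG' hT'.2.1) T (hG' hT) hT'.1)
          have h4 : T'.card ≤ (T' \ T).card + t := by
            have := card_sdiff_add_card_inter T' T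
            omega
          unfold wF
          have h5 : ((1 : ℝ) / 2) ^ ((T' \ T).card + t) ≤ (1 / 2) ^ T'.card :=
            pow_le_pow_of_le_one (by norm_num) (by norm_num) h4
          have h6 : ((1 : ℝ) / 2) ^ (T' \ T).card = 2 ^ t * (1 / 2) ^ ((T' \ T).card + t) := by
            rw [pow_add]
            have : (2 : ℝ) ^ t * (1 / 2) ^ t = 1 := by
              rw [← mul_pow]
              norm_num
            calc ((1 : ℝ) / 2) ^ (T' \ T).card = (1 / 2) ^ (T' \ T).card * 1 := by ring
              _ = (1 / 2) ^ (T' \ T).card * (2 ^ t * (1 / 2) ^ t) := by rw [this]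
              _ = _ := by ring
          rw [h6]
          exact mul_le_mul_of_nonneg_left h5 (by positivity)
        have := (wF_pos (T' \ ∅)).le
        linarith
      · push Not at hex
        rw [sdiff_empty, sdiff_eq_left9 hex]
        have := sum_nonneg hnn
        linarith
    unfold zS
    refine (sum_le_sum key).trans ?_
    rw [sum_add_distrib]
    refine add_le_add ?_ ?_
    · exact sum_le_sum_of_subset_of_nonneg (erase_subset _ _) fun T' _ _ => (wF_pos _).le
    · rw [sum_comm]
      refine le_trans ?_ (mul_le_mul_of_nonneg_left hdeg (by positivity))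
      rw [mul_sum]
      refine sum_le_sum fun j _ => ?_
      rw [← sum_filter, ← mul_sum]
      refine mul_le_mul_of_nonneg_left ?_ (by positivity)
      unfold dg
      refine sum_le_sum_of_subset_of_nonneg ?_ fun T' _ _ => (wF_pos _).le
      intro T' hT'
      rw [mem_filter, mem_erase, mem_filter] at hT'
      exact mem_filter.2 ⟨hG' hT'.1.2.1, hT'.2⟩
  have h2 := wS_le (h.sub hG').toFam' (S := ∅) (by positivity) (by simp) hz
  rw [wS_empty9] at h2
  exact h2

end Pool.Agent.H.MP_cba12a_lc
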