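import Mathlib

/-!
Growth of polynomials and powers of two.
-/

namespace Pool.Agent.H.MP_cba12a_lc

/-- a monomial is eventually at most a power of two -/
theorem poly_le_two_pow (K v : ℕ) : ∃ c : ℕ, 1 ≤ c ∧ ∀ ℓ : ℕ, c ≤ ℓ → K * ℓ ^ v ≤ 2 ^ ℓ := by
  have h := tendsto_pow_const_div_const_pow_of_one_lt v (r := (2 : ℝ)) (by norm_num)
  have hK : (0 : ℝ) < 1 / ((K : ℝ) + 1) := by positivity
  have h2 := (tendsto_order.1 h).2 _ hK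
  rw [Filter.eventually_atTop] at h2
  obtain ⟨c, hc⟩ := h2
  refine ⟨max c 1, le_max_right _ _, ?_⟩
  intro ℓ hℓ
  have h3 := hc ℓ (le_trans (le_max_left _ _) hℓ)
  have h4 : (0 : ℝ) < 2 ^ ℓ := by positivity
  rw [div_lt_div_iff₀ h4 (by positivity)] at h3
  have h5 : (K : ℝ) * (ℓ : ℝ) ^ v ≤ 2 ^ ℓ := by
    have h6 : (0 : ℝ) ≤ (ℓ : ℝ) ^ v := by positivity
    nlinarith
  exact_mod_cast h5

/-- the product of two monomials is eventually at most a power of two, with a threshold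
linear in the logarithm of the first variable -/
theorem growth9 (K u v : ℕ) : ∃ c : ℕ, ∀ a ℓ : ℕ, 1 ≤ a → c * (Nat.clog 2 a + 1) ≤ ℓ →
    K * a ^ u * ℓ ^ v ≤ 2 ^ ℓ := by
  obtain ⟨c1, _, hc1⟩ := poly_le_two_pow (K * K) (2 * v)
  refine ⟨c1 + 2 * u, ?_⟩
  intro a ℓ _ hℓ
  have e1 : (c1 + 2 * u) * (Nat.clog 2 a + 1)
      = c1 + c1 * Nat.clog 2 a + 2 * u * Nat.clog 2 a + 2 * u := by ring
  rw [e1] at hℓ
  have h1 : c1 ≤ ℓ := by omega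
  have h2 : 2 * u * Nat.clog 2 a ≤ ℓ := by omega
  have h3 : (K * ℓ ^ v) ^ 2 ≤ 2 ^ ℓ := by
    have h4 := hc1 ℓ h1
    have e2 : (K * ℓ ^ v) ^ 2 = K * K * ℓ ^ (2 * v) := by
      rw [mul_pow, ← pow_mul, mul_comm v 2, sq]
    rw [e2]
    exact h4
  have h5 : (a ^ u) ^ 2 ≤ 2 ^ ℓ := by
    have h6 : a ≤ 2 ^ Nat.clog 2 a := Nat.le_pow_clog (by norm_num) a
    have e3 : (a ^ u) ^ 2 = a ^ (2 * u) := by
      rw [← pow_mul, mul_comm u 2]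
    rw [e3]
    calc a ^ (2 * u) ≤ (2 ^ Nat.clog 2 a) ^ (2 * u) := Nat.pow_le_pow_left h6 _
      _ = 2 ^ (2 * u * Nat.clog 2 a) := by rw [← pow_mul, mul_comm]
      _ ≤ 2 ^ ℓ := Nat.pow_le_pow_right (by norm_num) h2
  have h7 : (K * a ^ u * ℓ ^ v) ^ 2 ≤ (2 ^ ℓ) ^ 2 := by
    have e4 : (K * a ^ u * ℓ ^ v) ^ 2 = (K * ℓ ^ v) ^ 2 * (a ^ u) ^ 2 := by ring
    rw [e4, sq (2 ^ ℓ)]
    exact Nat.mul_le_mul h3 h5
  exact (pow_le_pow_iff_left₀ (Nat.zero_le _) (Nat.zero_le _) (by norm_num)).1 h7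

end Pool.Agent.H.MP_cba12a_lc
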