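import Pool.Agent.H.MP_cba12a_lc.Par6
import Pool.Agent.H.MP_cba12a_lc.S9.Num9

/-!
Choice of the parameters, as functions of the length of a term.
-/

namespace Pool.Agent.H.MP_cba12a_lc

open Finset

/-- bound for the total weight at a leaf -/
def Bd9 (C e a : ℕ) : ℕ := C * (32 * a) ^ e + 1

/-- inverse of the richness parameter for terms of length `ℓ` -/
def Lam9 (t C e a ℓ : ℕ) : ℕ :=
  16 * a * (ℓ * (ℓ + 1)) * (6 * (t + 1) * ℓ * Bd9 C e a) ^ (t + 1)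

/-- inverse of the degree parameter for terms of length `ℓ` -/
def Del9 (t C e a ℓ : ℕ) : ℕ :=
  Lam9 t C e a ℓ * (2 ^ 16 * a ^ 2 * kk t ^ (t + 2) * 2 ^ (t * (t + 2) * (t + 3)) *
    2 ^ (t + 7) * ℓ)

/-- All the requirements on the length of a term hold once it is at least a constant times
`Nat.clog 2 a + 1`. -/
theorem par9 (t C e : ℕ) : ∃ c : ℕ, ∀ a ℓ : ℕ, 1 ≤ a → c * (Nat.clog 2 a + 1) ≤ ℓ →
    kk t ≤ ℓ ∧ ℓ * Bd9 C e a ≤ 2 ^ ℓ ∧ Lam9 t C e a ℓ * Del9 t C e a ℓ ^ (t + 1) ≤ 2 ^ ℓ := by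
  obtain ⟨K0, hK0⟩ : ∃ K0 : ℕ, K0 = C * 32 ^ e + 1 := ⟨_, rfl⟩
  obtain ⟨K1, hK1⟩ : ∃ K1 : ℕ, K1 = 32 * (6 * (t + 1) * K0) ^ (t + 1) := ⟨_, rfl⟩
  obtain ⟨M, hM⟩ : ∃ M : ℕ, M = 2 ^ 16 * kk t ^ (t + 2) * 2 ^ (t * (t + 2) * (t + 3)) *
    2 ^ (t + 7) := ⟨_, rfl⟩
  have hB : ∀ a : ℕ, 1 ≤ a → Bd9 C e a ≤ K0 * a ^ e := by
    intro a ha
    have h1 : 1 ≤ a ^ e := Nat.one_le_pow _ _ ha
    calc Bd9 C e a = C * 32 ^ e * a ^ e + 1 := by unfold Bd9; rw [mul_pow]; ring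
      _ ≤ C * 32 ^ e * a ^ e + a ^ e := Nat.add_le_add_left h1 _
      _ = K0 * a ^ e := by rw [hK0]; ring
  have hL : ∀ a ℓ : ℕ, 1 ≤ a → 1 ≤ ℓ →
      Lam9 t C e a ℓ ≤ K1 * a ^ (1 + e * (t + 1)) * ℓ ^ (t + 3) := by
    intro a ℓ ha hl
    have h1 : ℓ * (ℓ + 1) ≤ 2 * ℓ ^ 2 := by nlinarith
    calc Lam9 t C e a ℓ ≤ 16 * a * (2 * ℓ ^ 2) * (6 * (t + 1) * ℓ * (K0 * a ^ e)) ^ (t + 1) := by
          unfold Lam9
          refine Nat.mul_le_mul (Nat.mul_le_mul_left _ h1) (Nat.pow_le_pow_left ?_ _)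
          exact Nat.mul_le_mul_left _ (hB a ha)
      _ = K1 * a ^ (1 + e * (t + 1)) * ℓ ^ (t + 3) := by
          rw [hK1, show 6 * (t + 1) * ℓ * (K0 * a ^ e) = (6 * (t + 1) * K0) * (ℓ * a ^ e) by ring,
            mul_pow (6 * (t + 1) * K0), mul_pow ℓ, ← pow_mul, pow_add a 1, pow_one,
            show t + 3 = 2 + (t + 1) by ring, pow_add ℓ 2]
          ring
  have hD : ∀ a ℓ : ℕ, 1 ≤ a → 1 ≤ ℓ →
      Del9 t C e a ℓ ≤ K1 * M * a ^ (3 + e * (t + 1)) * ℓ ^ (t + 4) := by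
    intro a ℓ ha hl
    calc Del9 t C e a ℓ ≤ K1 * a ^ (1 + e * (t + 1)) * ℓ ^ (t + 3) *
          (2 ^ 16 * a ^ 2 * kk t ^ (t + 2) * 2 ^ (t * (t + 2) * (t + 3)) * 2 ^ (t + 7) * ℓ) := by
          unfold Del9
          exact Nat.mul_le_mul_right _ (hL a ℓ ha hl)
      _ = K1 * M * a ^ (3 + e * (t + 1)) * ℓ ^ (t + 4) := by
          rw [hM, show 3 + e * (t + 1) = (1 + e * (t + 1)) + 2 by ring, pow_add a _ 2,
            show t + 4 = (t + 3) + 1 by ring, pow_succ ℓ (t + 3)]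
          ring
  obtain ⟨c1, hc1⟩ := growth9 K0 e 1
  obtain ⟨c2, hc2⟩ := growth9 (K1 * (K1 * M) ^ (t + 1))
    (1 + e * (t + 1) + (3 + e * (t + 1)) * (t + 1)) (t + 3 + (t + 4) * (t + 1))
  refine ⟨c1 + c2 + kk t, fun a ℓ ha hl => ?_⟩
  have hq : 1 ≤ Nat.clog 2 a + 1 := by omega
  have e1 : kk t ≤ ℓ := by
    refine le_trans ?_ hl
    calc kk t ≤ c1 + c2 + kk t := by omega
      _ = (c1 + c2 + kk t) * 1 := (mul_one _).symm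
      _ ≤ _ := Nat.mul_le_mul_left _ hq
  have e0 : 1 ≤ ℓ := by
    have : 1 ≤ kk t := by unfold kk; omega
    omega
  have l1 : c1 * (Nat.clog 2 a + 1) ≤ ℓ :=
    le_trans (Nat.mul_le_mul_right _ (by omega)) hl
  have l2 : c2 * (Nat.clog 2 a + 1) ≤ ℓ :=
    le_trans (Nat.mul_le_mul_right _ (by omega)) hl
  refine ⟨e1, ?_, ?_⟩
  · calc ℓ * Bd9 C e a ≤ ℓ * (K0 * a ^ e) := Nat.mul_le_mul_left _ (hB a ha)
      _ = K0 * a ^ e * ℓ ^ 1 := by ring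
      _ ≤ 2 ^ ℓ := hc1 a ℓ ha l1
  · calc Lam9 t C e a ℓ * Del9 t C e a ℓ ^ (t + 1) ≤
          (K1 * a ^ (1 + e * (t + 1)) * ℓ ^ (t + 3)) *
            (K1 * M * a ^ (3 + e * (t + 1)) * ℓ ^ (t + 4)) ^ (t + 1) :=
          Nat.mul_le_mul (hL a ℓ ha e0) (Nat.pow_le_pow_left (hD a ℓ ha e0) _)
      _ = (K1 * (K1 * M) ^ (t + 1)) * a ^ (1 + e * (t + 1) + (3 + e * (t + 1)) * (t + 1)) *
            ℓ ^ (t + 3 + (t + 4) * (t + 1)) := by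
          rw [mul_pow (K1 * M * a ^ (3 + e * (t + 1))), mul_pow (K1 * M), ← pow_mul, ← pow_mul,
            pow_add a (1 + e * (t + 1)), pow_add ℓ (t + 3)]
          ring
      _ ≤ 2 ^ ℓ := hc2 a ℓ ha l2

/-- The gap between two lengths is at most a constant times `Nat.clog 2 a + 1`. -/
theorem gap9 (t c0 : ℕ) : ∃ c : ℕ, ∀ a : ℕ, 1 ≤ a →
    c0 * (Nat.clog 2 a + 1) + (t + 1) * JJ6 t a ≤ c * (Nat.clog 2 a + 1) := by
  refine ⟨c0 + (t + 1) * 2 ^ (t + 1) * 4, fun a ha => ?_⟩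
  have h1 : Nat.clog 2 (16 * a) ≤ 4 + Nat.clog 2 a := by
    have h2 := clog_mul_le 16 a
    have h3 : Nat.clog 2 16 = 4 := by
      rw [show (16 : ℕ) = 2 ^ 4 by norm_num]
      exact Nat.clog_pow 2 4 (by norm_num)
    omega
  have h2 : (t + 1) * JJ6 t a ≤ (t + 1) * 2 ^ (t + 1) * 4 * (Nat.clog 2 a + 1) := by
    unfold JJ6
    calc (t + 1) * (2 ^ (t + 1) * Nat.clog 2 (16 * a)) ≤
        (t + 1) * (2 ^ (t + 1) * (4 * (Nat.clog 2 a + 1))) := by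
          refine Nat.mul_le_mul_left _ (Nat.mul_le_mul_left _ ?_)
          omega
      _ = _ := by ring
  calc c0 * (Nat.clog 2 a + 1) + (t + 1) * JJ6 t a ≤
      c0 * (Nat.clog 2 a + 1) + (t + 1) * 2 ^ (t + 1) * 4 * (Nat.clog 2 a + 1) :=
        Nat.add_le_add_left h2 _
    _ = _ := (add_mul _ _ _).symm

end Pool.Agent.H.MP_cba12a_lc
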