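import Pool.Agent.H.MP_cba12a_lc.S9.Rich9
import Pool.Agent.H.MP_cba12a_lc.S9.Good9

/-!
One step of the estimate of the total weight.
-/

namespace Pool.Agent.H.MP_cba12a_lc

open Finset

variable {n : ℕ}

variable {t : ℕ} {κ : ℝ} {X : Finset (Fin n)} {G : Finset (Finset (Fin n × Bool))}

/-- the total weight is bounded by the weights of the short, of the rich and of the good terms -/
theorem weight_step (h : Fam9 (t + 1) κ X G) {B : ℝ} (hB0 : 0 ≤ B) (hB : ∀ j, dg G j ≤ B)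
    {ℓ1 : ℕ} (hℓ1 : 1 ≤ ℓ1) {W1 : ℝ} (hW1 : 1 ≤ W1) (hW : tW G ≤ W1)
    (hbig : ∀ ℓ : ℕ, ℓ1 ≤ ℓ →
      (6 * (t + 2) * ℓ ^ 2 * W1) ^ (t + 2) * (ℓ * (ℓ + 1)) ≤ 2 ^ ℓ) :
    tW G ≤ (3 * ℓ1 * (1 / κ)) ^ (t + 2) +
      (1 + (1 + 2 ^ (t + 1) * ((t + 1) * B + 1)) * (1 / κ)) := by
  classical
  set lam : ℕ → ℝ := fun ℓ => (1 / 2) ^ ℓ * (ℓ : ℝ) ^ (t + 2) with hlamdef
  -- the split
  have hsplit : tW G = ∑ T ∈ G.filter (fun T => T.card < ℓ1), wF T +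
      (∑ T ∈ G.filter (fun T => ℓ1 ≤ T.card ∧ Rich G (t + 1) (lam T.card) T), wF T +
      ∑ T ∈ G.filter (fun T => ℓ1 ≤ T.card ∧ ¬ Rich G (t + 1) (lam T.card) T), wF T) := by
    unfold tW
    rw [← sum_filter_add_sum_filter_not G (fun T => T.card < ℓ1)]
    congr 1
    rw [← sum_filter_add_sum_filter_not (G.filter fun T => ¬ T.card < ℓ1)
      (fun T => Rich G (t + 1) (lam T.card) T), filter_filter, filter_filter]
    simp only [not_lt]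
  -- the short terms
  have ha : ∑ T ∈ G.filter (fun T => T.card < ℓ1), wF T ≤ (3 * ℓ1 * (1 / κ)) ^ (t + 2) := by
    have h1 : Fam (t + 1) ℓ1 κ X (G.filter fun T => T.card < ℓ1) :=
      (h.sub (filter_subset _ _)).toFam hℓ1 fun T hT => (mem_filter.1 hT).2.le
    have h2 := total_weight_le h1
    have e : (3 * (ℓ1 : ℝ) / κ) ^ (t + 1 + 1) = (3 * ℓ1 * (1 / κ)) ^ (t + 2) := by
      rw [mul_one_div]
    rwa [e] at h2
  -- the rich terms
  have hx : ∀ ℓ : ℕ, ℓ1 ≤ ℓ → (1 : ℝ) ≤ ℓ := fun ℓ hℓ => by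
    exact_mod_cast hℓ1.trans hℓ
  have hb : ∑ T ∈ G.filter (fun T => ℓ1 ≤ T.card ∧ Rich G (t + 1) (lam T.card) T), wF T ≤ 1 := by
    refine rich_total_le h hW1 hW hℓ1 ?_ zero_le_one ?_ ?_
    · intro ℓ hℓ
      have hl := hx ℓ hℓ
      have h1 : (ℓ : ℝ) * W1 ≤ 6 * (t + 2) * ℓ ^ 2 * W1 := by
        refine mul_le_mul_of_nonneg_right ?_ (by linarith)
        have h3 : (0 : ℝ) ≤ t := Nat.cast_nonneg t
        nlinarith
      have h2 : 1 ≤ 6 * (t + 2) * (ℓ : ℝ) ^ 2 * W1 := by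
        refine le_trans ?_ h1
        nlinarith
      have h3 : 6 * (t + 2) * (ℓ : ℝ) ^ 2 * W1 ≤ (6 * (t + 2) * (ℓ : ℝ) ^ 2 * W1) ^ (t + 2) :=
        le_self_pow₀ h2 (by omega)
      have h4 : (1 : ℝ) ≤ ℓ * (ℓ + 1) := by nlinarith
      have h5 := hbig ℓ hℓ
      have h6 : (6 * (t + 2) * (ℓ : ℝ) ^ 2 * W1) ^ (t + 2) * 1 ≤
          (6 * (t + 2) * (ℓ : ℝ) ^ 2 * W1) ^ (t + 2) * (ℓ * (ℓ + 1)) :=
        mul_le_mul_of_nonneg_left h4 (by positivity)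
      linarith
    · intro ℓ _
      simp only [hlamdef]
      positivity
    · intro ℓ hℓ
      have hl := hx ℓ hℓ
      have h5 := hbig ℓ hℓ
      have hpos : (0 : ℝ) < ℓ * (ℓ + 1) := by nlinarith
      rw [le_div_iff₀ hpos]
      simp only [hlamdef]
      have e1 : (1 / 2 : ℝ) ^ ℓ * (ℓ : ℝ) ^ (t + 2) *
          (6 * (((t + 1 : ℕ) : ℝ) + 1) * ℓ * W1) ^ (t + 1 + 1) * (ℓ * (ℓ + 1)) =
          (1 / 2 : ℝ) ^ ℓ * ((6 * (t + 2) * (ℓ : ℝ) ^ 2 * W1) ^ (t + 2) * (ℓ * (ℓ + 1))) := by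
        have e2 : (6 * (t + 2) * (ℓ : ℝ) ^ 2 * W1) ^ (t + 2) =
            (ℓ : ℝ) ^ (t + 2) * (6 * (((t + 1 : ℕ) : ℝ) + 1) * ℓ * W1) ^ (t + 1 + 1) := by
          rw [← mul_pow]
          congr 1
          push_cast
          ring
        rw [e2]
        ring
      rw [e1]
      calc (1 / 2 : ℝ) ^ ℓ * ((6 * (t + 2) * (ℓ : ℝ) ^ 2 * W1) ^ (t + 2) * (ℓ * (ℓ + 1)))
          ≤ (1 / 2 : ℝ) ^ ℓ * 2 ^ ℓ := mul_le_mul_of_nonneg_left h5 (by positivity)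
        _ = 1 := by rw [← mul_pow]; norm_num
  -- the good terms
  have hc : ∑ T ∈ G.filter (fun T => ℓ1 ≤ T.card ∧ ¬ Rich G (t + 1) (lam T.card) T), wF T ≤
      (1 + 2 ^ (t + 1) * ((t + 1) * B + 1)) * (1 / κ) := by
    have h1 := good_le h hB0 hB (filter_subset
      (fun T => ℓ1 ≤ T.card ∧ ¬ Rich G (t + 1) (lam T.card) T) G) (by
      intro T hT
      obtain ⟨hT1, hT2, hT3⟩ := mem_filter.1 hT
      have hl : (1 : ℝ) ≤ T.card := hx _ hT2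
      have hl0 : (0 : ℝ) < T.card := by linarith
      refine few_big (G := G) (t := t + 1) (δ := 1 / (T.card : ℝ)) (lam := lam T.card)
        (by positivity) ?_ hT3 (le_of_eq ?_)
      · simp only [hlamdef]
        positivity
      · simp only [hlamdef]
        unfold wF
        rw [mul_assoc, ← mul_pow, mul_one_div_cancel hl0.ne', one_pow, mul_one])
    unfold tW at h1
    refine h1.trans (le_of_eq ?_)
    push_cast
    ring
  rw [hsplit]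
  linarith

end Pool.Agent.H.MP_cba12a_lc
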