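import Pool.Agent.H.MP_cba12a_lc.S9.Link9
import Pool.Agent.H.MP_cba12a_lc.S9.Step9
import Pool.Agent.H.MP_cba12a_lc.S9.Self9

/-!
The total weight of the terms at a leaf is at most a polynomial in `1 / κ`.
-/

namespace Pool.Agent.H.MP_cba12a_lc

open Finset

variable {n : ℕ}

/-- The total weight of a family is at most a polynomial in `1 / κ`. -/
theorem weight_bound (t : ℕ) : ∃ C e : ℕ, ∀ (n : ℕ) (κ : ℝ) (X : Finset (Fin n))
    (G : Finset (Finset (Fin n × Bool))), Fam9 t κ X G → tW G ≤ C * (1 / κ) ^ e := by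
  induction t with
  | zero => exact ⟨1, 1, fun n κ X G h => by simpa using tW_zero h⟩
  | succ t ih =>
    obtain ⟨C, e, ih⟩ := ih
    obtain ⟨C', hC'⟩ := self_bound t
    refine ⟨C' * (3 + 2 ^ (t + 1) * ((t + 1) * C + 1)), 2 * (t + 2) + e + 1, ?_⟩
    intro n κ X G h
    have hq : 1 ≤ 1 / κ := by
      rw [le_div_iff₀ h.pos]
      linarith [h.le_one]
    set B : ℝ := C * (1 / κ) ^ e with hBdef
    have hq0 : (0 : ℝ) ≤ 1 / κ := by linarith
    have hB0 : 0 ≤ B := by positivity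
    have hB : ∀ j, dg G j ≤ B := by
      intro j
      refine dg_le_link h ?_ j
      intro X' G' h'
      have h9 : tW G' ≤ C * (1 / κ) ^ e := ih n κ X' G' h'
      exact h9
    have hA : (1 : ℝ) ≤ 1 + (1 + 2 ^ (t + 1) * ((t + 1) * B + 1)) * (1 / κ) := by
      have : (0 : ℝ) ≤ (1 + 2 ^ (t + 1) * ((t + 1) * B + 1)) * (1 / κ) := by positivity
      linarith
    have key := hC' (1 / κ) (tW G) (1 + (1 + 2 ^ (t + 1) * ((t + 1) * B + 1)) * (1 / κ)) hq hA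
      (fun l1 W1 h1 h2 h3 h4 => weight_step h hB0 hB h1 h2 h3 h4)
    refine key.trans ?_
    have hp : (1 : ℝ) ≤ (1 / κ) ^ (e + 1) := one_le_pow₀ hq
    have hqe : (1 / κ) ≤ (1 / κ) ^ (e + 1) := by
      calc (1 / κ) = (1 / κ) ^ 1 := (pow_one _).symm
        _ ≤ _ := pow_le_pow_right₀ hq (by omega)
    have hAle : 1 + (1 + 2 ^ (t + 1) * ((t + 1) * B + 1)) * (1 / κ) ≤
        (2 + 2 ^ (t + 1) * ((t + 1) * C + 1)) * (1 / κ) ^ (e + 1) := by
      have e1 : 1 + (1 + 2 ^ (t + 1) * ((t + 1) * B + 1)) * (1 / κ) =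
          1 + (1 / κ) + 2 ^ (t + 1) * ((t + 1) * C * (1 / κ) ^ (e + 1) + (1 / κ)) := by
        rw [hBdef]; ring
      rw [e1]
      have h2 : (2 : ℝ) ^ (t + 1) * ((t + 1) * C * (1 / κ) ^ (e + 1) + (1 / κ)) ≤
          2 ^ (t + 1) * ((t + 1) * C * (1 / κ) ^ (e + 1) + (1 / κ) ^ (e + 1)) := by
        apply mul_le_mul_of_nonneg_left _ (by positivity)
        linarith
      nlinarith [h2, hp, hqe]
    have h3 : (1 / κ) ^ (2 * (t + 2)) ≤ (1 / κ) ^ (2 * (t + 2) + e + 1) :=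
      pow_le_pow_right₀ hq (by omega)
    have h4 : (1 / κ) ^ (e + 1) ≤ (1 / κ) ^ (2 * (t + 2) + e + 1) :=
      pow_le_pow_right₀ hq (by omega)
    have h5 : (2 + 2 ^ (t + 1) * ((t + 1) * C + 1)) * (1 / κ) ^ (e + 1) ≤
        (2 + 2 ^ (t + 1) * ((t + 1) * (C : ℝ) + 1)) * (1 / κ) ^ (2 * (t + 2) + e + 1) :=
      mul_le_mul_of_nonneg_left h4 (by positivity)
    calc (C' : ℝ) * ((1 / κ) ^ (2 * (t + 2)) +
          (1 + (1 + 2 ^ (t + 1) * ((t + 1) * B + 1)) * (1 / κ)))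
        ≤ C' * ((1 / κ) ^ (2 * (t + 2) + e + 1) +
          (2 + 2 ^ (t + 1) * ((t + 1) * (C : ℝ) + 1)) * (1 / κ) ^ (2 * (t + 2) + e + 1)) := by
          apply mul_le_mul_of_nonneg_left _ (by positivity)
          linarith
      _ = _ := by push_cast; ring

end Pool.Agent.H.MP_cba12a_lc
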