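import Pool.Agent.H.MP_cba12a_lc.S9.Par9
import Pool.Agent.H.MP_cba12a_lc.S9.Wt9

/-!
The rich terms, with the chosen parameters.
-/

namespace Pool.Agent.H.MP_cba12a_lc

open Finset

open Classical in
/-- The total weight of the rich terms of length at least `ℓ0` is at most `1 / (16 * a)`. -/
theorem rich9 {t C e : ℕ} (hCe : ∀ (n : ℕ) (κ : ℝ) (X : Finset (Fin n))
      (G : Finset (Finset (Fin n × Bool))), Fam9 t κ X G → tW G ≤ C * (1 / κ) ^ e)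
    {a ℓ0 : ℕ} (ha : 1 ≤ a) (hℓ : ∀ ℓ : ℕ, ℓ0 ≤ ℓ → kk t ≤ ℓ ∧ ℓ * Bd9 C e a ≤ 2 ^ ℓ)
    {n : ℕ} (X : Finset (Fin n)) (G : Finset (Finset (Fin n × Bool)))
    (h : Fam9 t (1 / (2 * (16 * a : ℕ))) X G) :
    ∑ T ∈ G.filter (fun T => ℓ0 ≤ T.card ∧ Rich G t (1 / (Lam9 t C e a T.card : ℝ)) T), wF T ≤
      1 / (16 * a) := by
  have ha' : (1 : ℝ) ≤ a := by exact_mod_cast ha
  have hkk : 1 ≤ kk t := by unfold kk; omega
  have hℓ0 : 1 ≤ ℓ0 := hkk.trans (hℓ ℓ0 le_rfl).1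
  have hB : (1 : ℝ) ≤ (Bd9 C e a : ℕ) := by
    have : 1 ≤ Bd9 C e a := by unfold Bd9; omega
    exact_mod_cast this
  have hW : tW G ≤ (Bd9 C e a : ℕ) := by
    refine (hCe n _ X G h).trans ?_
    rw [one_div_one_div]
    unfold Bd9
    push_cast
    have e1 : (2 : ℝ) * (16 * a) = 32 * a := by ring
    rw [e1]
    linarith
  refine rich_total_le (lam := fun ℓ => 1 / (Lam9 t C e a ℓ : ℝ)) h hB hW hℓ0 ?_ ?_ ?_ ?_
  · intro ℓ hl
    exact_mod_cast (hℓ ℓ hl).2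
  · positivity
  · intro ℓ _
    positivity
  · intro ℓ hl
    have hl1 : (1 : ℝ) ≤ ℓ := by exact_mod_cast hℓ0.trans hl
    have hx : (0 : ℝ) < (6 * (t + 1) * ℓ * (Bd9 C e a : ℕ)) ^ (t + 1) := by positivity
    have e1 : (Lam9 t C e a ℓ : ℝ) =
        16 * a * (ℓ * (ℓ + 1)) * (6 * (t + 1) * ℓ * (Bd9 C e a : ℕ)) ^ (t + 1) := by
      unfold Lam9
      push_cast
      ring
    rw [e1]
    refine le_of_eq ?_
    field_simp

end Pool.Agent.H.MP_cba12a_lc
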