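import Pool.Agent.H.MP_cba12a_lc.S9.Fam9

/-!
The signal, with the length of the term itself instead of the greatest length.
-/

namespace Pool.Agent.H.MP_cba12a_lc

open Finset

variable {n : ℕ}

variable {t : ℕ} {κ δ : ℝ} {X : Finset (Fin n)} {G : Finset (Finset (Fin n × Bool))}

/-- **The signal**: given that `T` and at most one further literal hold, with good probability no
other term holds. -/
theorem signal_lower9 (h : Fam9 t κ X G) {T E : Finset (Fin n × Bool)} (hT : T ∈ G)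
    (hE : (vs E).card = E.card) (hE1 : E.card ≤ 1) (hET : Disjoint (vs E) (vs T))
    (hEX : Disjoint (vs E) X) (hδ : 0 < δ)
    (hfew : ((vs T).filter fun j => δ < dg G j).card ≤ t) :
    wF T * wF E * (κ - 2 ^ (t + 1) * T.card * δ) ≤
      mu (fun x => decide (SatT T x ∧ SatT E x ∧ ∀ A ∈ G, A ≠ T → ¬ SatT A x)) := by
  classical
  have hTc := h.cons T hT
  set S0 := T.filter fun l => δ < dg G l.1 with hS0
  set T1 := T.filter fun l => ¬ δ < dg G l.1 with hT1
  set G0 := G.filter fun A => A ≠ T ∧ Disjoint (vs A) (vs T1) with hG0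
  have hT01 : S0 ∪ T1 = T := filter_union_filter_not_eq _ _
  have hS0T : S0 ⊆ T := filter_subset _ _
  have hT1T : T1 ⊆ T := filter_subset _ _
  have hS0c := cons_mono hS0T hTc
  have hT1c := cons_mono hT1T hTc
  have hS0card : S0.card ≤ t := by
    rw [← hS0c]
    refine (card_le_card ?_).trans hfew
    intro j hj
    obtain ⟨l, hl, rfl⟩ := mem_vs.1 hj
    rw [hS0, mem_filter] at hl
    exact mem_filter.2 ⟨mem_vs.2 ⟨l, hl.1, rfl⟩, hl.2⟩
  have hdisT1S0 : Disjoint (vs T1) (vs S0) := by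
    rw [disjoint_left]
    intro j hj hj'
    obtain ⟨l, hl, rfl⟩ := mem_vs.1 hj
    obtain ⟨l', hl', he⟩ := mem_vs.1 hj'
    rw [hT1, mem_filter] at hl
    rw [hS0, mem_filter, he] at hl'
    exact hl.2 hl'.2
  have hdisT1E : Disjoint (vs T1) (vs E) := (hET.mono_right (vs_mono hT1T)).symm
  -- the small conjunction
  set C := S0 ∪ E with hC
  have hvsU : ∀ A B : Finset (Fin n × Bool), vs (A ∪ B) = vs A ∪ vs B := by
    intro A B
    unfold vs
    exact image_union _ _
  have hdisS0E : Disjoint (vs S0) (vs E) := (hET.mono_right (vs_mono hS0T)).symm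
  have hdisS0E' : Disjoint S0 E := by
    rw [disjoint_left]
    intro l hl hl'
    exact disjoint_left.1 hdisS0E (mem_vs.2 ⟨l, hl, rfl⟩) (mem_vs.2 ⟨l, hl', rfl⟩)
  have hCc : (vs C).card = C.card := by
    rw [hC, hvsU, card_union_of_disjoint hdisS0E, card_union_of_disjoint hdisS0E', hS0c, hE]
  have hCX : Disjoint (vs C) X := by
    rw [hC, hvsU]
    exact disjoint_union_left.2 ⟨(h.dis T hT).mono_left (vs_mono hS0T), hEX⟩
  have hCcard : C.card ≤ t + 1 := by
    rw [hC, card_union_of_disjoint hdisS0E']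
    omega
  have hlow := h.low C hCc hCX hCcard
  -- independence
  have hind := mu_satT_eq hT1c (fun x : Fin n → Bool => SatT C x ∧ ∀ A ∈ G0, ¬ SatT A x) (by
    intro i hi x
    have h1 : i ∉ vs C := by
      rw [hC, hvsU, mem_union]
      rintro (hc | hc)
      · exact disjoint_left.1 hdisT1S0 hi hc
      · exact disjoint_left.1 hdisT1E hi hc
    have h2 : ∀ A ∈ G0, (SatT A (flp i x) ↔ SatT A x) := by
      intro A hA
      rw [hG0, mem_filter] at hA
      exact satT_flp (fun hc => disjoint_left.1 hA.2.2 hc hi) x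
    refine and_congr (satT_flp h1 x) ?_
    exact ⟨fun h3 A hA hs => h3 A hA ((h2 A hA).2 hs),
      fun h3 A hA hs => h3 A hA ((h2 A hA).1 hs)⟩)
  have h1 : nn G C ≤ mu (fun x => decide (SatT C x ∧ ∀ A ∈ G0, ¬ SatT A x)) := by
    unfold nn
    refine mu_mono fun x hx => ?_
    rw [decide_eq_true_iff] at hx ⊢
    exact ⟨hx.1, fun A hA => hx.2 A (mem_filter.1 hA).1⟩
  have hwF : wF T * wF E = wF T1 * wF C := by
    unfold wF
    rw [← pow_add, ← pow_add]
    congr 1
    have h2 : T.card = S0.card + T1.card := by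
      rw [← card_union_of_disjoint, hT01]
      rw [disjoint_left]
      intro l hl hl'
      exact disjoint_left.1 hdisT1S0 (mem_vs.2 ⟨l, hl', rfl⟩) (mem_vs.2 ⟨l, hl, rfl⟩)
    rw [hC, card_union_of_disjoint hdisS0E']
    omega
  have h2 : wF T * wF E * κ ≤ mu (fun x => decide (SatT T1 x ∧
      (SatT C x ∧ ∀ A ∈ G0, ¬ SatT A x))) := by
    rw [hind, hwF]
    calc wF T1 * wF C * κ = wF T1 * (κ * wF C) := by ring
      _ ≤ _ := mul_le_mul_of_nonneg_left (hlow.trans h1) (wF_pos _).le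
  -- the terms that meet T1
  set G1 : Finset (Σ _j : Fin n, Finset (Fin n × Bool)) :=
    (vs T1).sigma fun j => (G.filter fun A => j ∈ vs A).erase T with hG1
  have h3 : mu (fun x => decide (SatT T1 x ∧ (SatT C x ∧ ∀ A ∈ G0, ¬ SatT A x))) ≤
      mu (fun x => decide (SatT T x ∧ SatT E x ∧ ∀ A ∈ G, A ≠ T → ¬ SatT A x)) +
      mu (fun x => decide (∃ p ∈ G1, SatT (T ∪ E ∪ p.2) x)) := by
    refine mu_le_add fun x hx => ?_
    rw [decide_eq_true_iff] at hx
    rw [decide_eq_true_iff, decide_eq_true_iff]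
    obtain ⟨a1, a2, a3⟩ := hx
    rw [hC, satT_union] at a2
    have hTx : SatT T x := by
      rw [← hT01, satT_union]
      exact ⟨a2.1, a1⟩
    by_cases hex : ∀ A ∈ G, A ≠ T → ¬ SatT A x
    · exact Or.inl ⟨hTx, a2.2, hex⟩
    · right
      push Not at hex
      obtain ⟨A, hA, hAT, hAx⟩ := hex
      have hnd : ¬ Disjoint (vs A) (vs T1) := by
        intro hd
        exact a3 A (mem_filter.2 ⟨hA, hAT, hd⟩) hAx
      rw [not_disjoint_iff] at hnd
      obtain ⟨j, hj1, hj2⟩ := hnd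
      refine ⟨⟨j, A⟩, ?_, ?_⟩
      · rw [hG1, mem_sigma]
        exact ⟨hj2, mem_erase.2 ⟨hAT, mem_filter.2 ⟨hA, hj1⟩⟩⟩
      · rw [satT_union, satT_union]
        exact ⟨⟨hTx, a2.2⟩, hAx⟩
  have h4 : mu (fun x => decide (∃ p ∈ G1, SatT (T ∪ E ∪ p.2) x)) ≤
      ∑ p ∈ G1, wF T * wF E * (2 ^ (t + 1) * wF p.2) := by
    refine (mu_finset_le G1 _ (fun p x => decide (SatT (T ∪ E ∪ p.2) x)) ?_).trans ?_
    · intro x hx
      rw [decide_eq_true_iff] at hx
      obtain ⟨p, hp, hs⟩ := hx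
      exact ⟨p, hp, decide_eq_true hs⟩
    · refine sum_le_sum fun p hp => ?_
      refine (mu_sat1_le _).trans ?_
      rw [hG1, mem_sigma, mem_erase, mem_filter] at hp
      have hA := h.share T hT p.2 hp.2.2.1 (Ne.symm hp.2.1)
      have hcard : T.card + E.card + p.2.card ≤ (T ∪ E ∪ p.2).card + (t + 1) := by
        have e1 : Disjoint T E := by
          rw [disjoint_left]
          intro l hl hl'
          exact disjoint_left.1 hET (mem_vs.2 ⟨l, hl', rfl⟩) (mem_vs.2 ⟨l, hl, rfl⟩)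
        have e2 := card_union_add_card_inter (T ∪ E) p.2
        rw [card_union_of_disjoint e1] at e2
        have e3 : ((T ∪ E) ∩ p.2).card ≤ (T ∩ p.2).card + (E ∩ p.2).card := by
          rw [union_inter_distrib_right]
          exact card_union_le _ _
        have e4 := (card_lit_inter_le (B := p.2) hTc).trans hA
        have e5 := (card_le_card (inter_subset_left (s₁ := E) (s₂ := p.2))).trans hE1
        omega
      unfold wF
      have e6 : (1 / 2 : ℝ) ^ T.card * (1 / 2) ^ E.card * (2 ^ (t + 1) * (1 / 2) ^ p.2.card) =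
          2 ^ (t + 1) * (1 / 2) ^ (T.card + E.card + p.2.card) := by
        rw [pow_add, pow_add]; ring
      rw [e6]
      have e7 : (1 / 2 : ℝ) ^ ((T ∪ E ∪ p.2).card + (t + 1)) ≤
          (1 / 2) ^ (T.card + E.card + p.2.card) :=
        pow_le_pow_of_le_one (by norm_num) (by norm_num) hcard
      have e8 : (1 / 2 : ℝ) ^ (T ∪ E ∪ p.2).card =
          2 ^ (t + 1) * (1 / 2) ^ ((T ∪ E ∪ p.2).card + (t + 1)) := by
        have e9 : (2 : ℝ) ^ (t + 1) * (1 / 2) ^ (t + 1) = 1 := by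
          rw [← mul_pow]
          norm_num
        rw [pow_add (1 / 2 : ℝ) (T ∪ E ∪ p.2).card (t + 1)]
        calc (1 / 2 : ℝ) ^ (T ∪ E ∪ p.2).card =
            (2 ^ (t + 1) * (1 / 2) ^ (t + 1)) * (1 / 2 : ℝ) ^ (T ∪ E ∪ p.2).card := by
              rw [e9, one_mul]
          _ = _ := by ring
      rw [e8]
      exact mul_le_mul_of_nonneg_left e7 (by positivity)
  have h5 : ∑ p ∈ G1, wF T * wF E * (2 ^ (t + 1) * wF p.2) ≤
      wF T * wF E * (2 ^ (t + 1) * T.card * δ) := by
    rw [← mul_sum, ← mul_sum, mul_assoc ((2 : ℝ) ^ (t + 1))]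
    refine mul_le_mul_of_nonneg_left (mul_le_mul_of_nonneg_left ?_ (by positivity))
      (mul_nonneg (wF_pos _).le (wF_pos _).le)
    rw [hG1, sum_sigma]
    have e1 : ∀ j ∈ vs T1, ∑ A ∈ (G.filter fun A => j ∈ vs A).erase T, wF A ≤ δ := by
      intro j hj
      have e2 : ∑ A ∈ (G.filter fun A => j ∈ vs A).erase T, wF A ≤ dg G j :=
        sum_le_sum_of_subset_of_nonneg (erase_subset _ _) fun A _ _ => (wF_pos _).le
      obtain ⟨l, hl, rfl⟩ := mem_vs.1 hj
      rw [hT1, mem_filter] at hl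
      exact e2.trans (not_lt.1 hl.2)
    refine (sum_le_sum e1).trans ?_
    rw [sum_const, nsmul_eq_mul]
    refine mul_le_mul_of_nonneg_right ?_ hδ.le
    have e3 : (vs T1).card ≤ T.card := by
      rw [hT1c]
      exact card_le_card hT1T
    exact_mod_cast e3
  have h6 : wF T * wF E * (κ - 2 ^ (t + 1) * T.card * δ) =
      wF T * wF E * κ - wF T * wF E * (2 ^ (t + 1) * T.card * δ) := by ring
  rw [h6]
  linarith

end Pool.Agent.H.MP_cba12a_lc
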